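import Mathlib

set_option autoImplicit false

namespace Pool.Agent.H323FY

open Polynomial Finset

/-- `q m = 1 + X + ... + X^(m-1)`. -/
noncomputable def q (m : ℕ) : ℤ[X] := ∑ i ∈ range m, X ^ i

/-- generating polynomials of the order complexes of Boolean intervals. -/
noncomputable def ap : ℕ → ℤ[X]
  | s => if s = 0 then 1 else ∑ p : Fin s, (s.choose p : ℤ[X]) * (X - 1) ^ (s - 1 - p) * ap p
termination_by s => s
decreasing_by exact p.2

/-- generating polynomials of Feichtner-Yuzvinsky exponents with a given top set. -/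
noncomputable def dp : ℕ → ℤ[X]
  | s => if s = 0 then 1 else ∑ p : Fin s, (s.choose p : ℤ[X]) * dp p * (q (s - p) - 1)
termination_by s => s
decreasing_by exact p.2

lemma ap_zero : ap 0 = 1 := by rw [ap]; simp
lemma dp_zero : dp 0 = 1 := by rw [dp]; simp

lemma ap_pos {s : ℕ} (hs : 0 < s) :
    ap s = ∑ p ∈ range s, (s.choose p : ℤ[X]) * (X - 1) ^ (s - 1 - p) * ap p := by
  rw [ap, if_neg (by omega), Finset.sum_range]

lemma dp_pos {s : ℕ} (hs : 0 < s) :
    dp s = ∑ p ∈ range s, (s.choose p : ℤ[X]) * dp p * (q (s - p) - 1) := by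
  rw [dp, if_neg (by omega), Finset.sum_range]

lemma X_sub_one_ne : (X - 1 : ℤ[X]) ≠ 0 := by
  simpa using Polynomial.X_sub_C_ne_zero (1 : ℤ)

lemma q_mul (m : ℕ) : q m * (X - 1) = X ^ m - 1 := by
  unfold q; exact geom_sum_mul _ _

lemma q_succ (m : ℕ) : q (m + 1) = q m + X ^ m := by
  unfold q; rw [Finset.sum_range_succ]

lemma lemQ (N : ℕ) : ∑ i ∈ range N, (N.choose i : ℤ[X]) * (X - 1) ^ (N - 1 - i) = q N := by
  apply mul_right_cancel₀ X_sub_one_ne
  rw [q_mul, Finset.sum_mul]
  have h := add_pow (1 : ℤ[X]) (X - 1) N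
  rw [Finset.sum_range_succ] at h
  have h2 : (1 : ℤ[X]) + (X - 1) = X := by ring
  rw [h2] at h
  rw [h]
  simp only [one_pow, one_mul, Nat.sub_self, pow_zero, Nat.choose_self, Nat.cast_one]
  rw [add_sub_cancel_right]
  apply Finset.sum_congr rfl
  intro i hi
  rw [Finset.mem_range] at hi
  have : N - i = (N - 1 - i) + 1 := by omega
  rw [this, pow_succ]
  ring

/-- the left sum. -/
noncomputable def L (N R : ℕ) : ℤ[X] := ∑ i ∈ range R, (N.choose i : ℤ[X]) * (X - 1) ^ (R - 1 - i)
/-- the right sum (indexed with `u = i+1`). -/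
noncomputable def Z (N R : ℕ) : ℤ[X] := ∑ i ∈ range R, ((N - (i + 1) - 1).choose (R - (i + 1)) : ℤ[X]) * q (i + 1)

lemma L_rec (N R : ℕ) : L (N + 1) (R + 1) = L N (R + 1) + L N R := by
  unfold L
  rw [Finset.sum_range_succ' (fun i => ((N + 1).choose i : ℤ[X]) * (X - 1) ^ (R + 1 - 1 - i)) R,
    Finset.sum_range_succ' (fun i => ((N).choose i : ℤ[X]) * (X - 1) ^ (R + 1 - 1 - i)) R]
  have : ∀ i ∈ range R, ((N + 1).choose (i + 1) : ℤ[X]) * (X - 1) ^ (R + 1 - 1 - (i + 1)) =
      (N.choose (i + 1) : ℤ[X]) * (X - 1) ^ (R + 1 - 1 - (i + 1)) + (N.choose i : ℤ[X]) * (X - 1) ^ (R - 1 - i) := by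
    intro i hi
    rw [Nat.choose_succ_succ]
    have : R + 1 - 1 - (i + 1) = R - 1 - i := by omega
    rw [this]; push_cast; ring
  rw [Finset.sum_congr rfl this, Finset.sum_add_distrib]
  simp only [Nat.choose_zero_right]
  ring

lemma Z_rec (N R : ℕ) (h : R + 1 ≤ N) : Z (N + 1) (R + 1) = Z N (R + 1) + Z N R := by
  unfold Z
  rw [Finset.sum_range_succ, Finset.sum_range_succ]
  have : ∀ i ∈ range R, ((N + 1 - (i + 1) - 1).choose (R + 1 - (i + 1)) : ℤ[X]) * q (i + 1) =
      ((N - (i + 1) - 1).choose (R + 1 - (i + 1)) : ℤ[X]) * q (i + 1)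
      + ((N - (i + 1) - 1).choose (R - (i + 1)) : ℤ[X]) * q (i + 1) := by
    intro i hi
    rw [Finset.mem_range] at hi
    obtain ⟨a, ha⟩ : ∃ a, N = a + (i + 1) + 1 := ⟨N - (i + 1) - 1, by omega⟩
    obtain ⟨b, hb⟩ : ∃ b, R = b + (i + 1) := ⟨R - (i + 1), by omega⟩
    have h1 : N + 1 - (i + 1) - 1 = a + 1 := by omega
    have h2 : R + 1 - (i + 1) = b + 1 := by omega
    have h3 : N - (i + 1) - 1 = a := by omega
    have h4 : R - (i + 1) = b := by omega
    rw [h1, h2, h3, h4, Nat.choose_succ_succ]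
    push_cast; ring
  rw [Finset.sum_congr rfl this, Finset.sum_add_distrib]
  have h5 : R + 1 - (R + 1) = 0 := by omega
  rw [h5]
  simp only [Nat.choose_zero_right]
  ring

lemma Z_self (N : ℕ) : Z N N = q N := by
  unfold Z
  rcases N with _ | N
  · simp [q]
  · rw [Finset.sum_range_succ, Finset.sum_eq_zero, zero_add]
    · simp
    · intro i hi
      rw [Finset.mem_range] at hi
      rw [Nat.choose_eq_zero_of_lt (by omega)]
      simp

lemma lemZ : ∀ N R : ℕ, R ≤ N → L N R = Z N R := by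
  intro N
  induction N with
  | zero => intro R hR; have : R = 0 := by omega
            subst this; simp [L, Z]
  | succ N ih =>
    intro R hR
    rcases R with _ | R
    · simp [L, Z]
    · by_cases h : R = N
      · subst h
        rw [Z_self]; exact lemQ (R + 1)
      · rw [L_rec, Z_rec N R (by omega), ih _ (by omega), ih _ (by omega)]

/-- exchange of a triangular double sum. -/
lemma sum_tri (r : ℕ) (f : ℕ → ℕ → ℤ[X]) :
    ∑ s ∈ range r, ∑ k ∈ range (s + 1), f s k = ∑ k ∈ range r, ∑ i ∈ range (r - k), f (k + i) k := by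
  have h1 : ∑ s ∈ range r, ∑ k ∈ range (s + 1), f s k =
      ∑ s ∈ range r, ∑ k ∈ range r, if k ≤ s then f s k else 0 := by
    apply Finset.sum_congr rfl
    intro s hs
    rw [Finset.mem_range] at hs
    rw [← Finset.sum_filter]
    apply Finset.sum_congr _ (fun _ _ => rfl)
    ext k; simp only [Finset.mem_range, Finset.mem_filter]; omega
  rw [h1, Finset.sum_comm]
  apply Finset.sum_congr rfl
  intro k hk
  rw [Finset.mem_range] at hk
  rw [← Finset.sum_filter]
  symm
  apply Finset.sum_nbij' (fun i => k + i) (fun s => s - k)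
  · intro i hi; simp only [Finset.mem_range, Finset.mem_filter] at *; omega
  · intro i hi; simp only [Finset.mem_range, Finset.mem_filter] at *; omega
  · intro i hi; simp
  · intro i hi; simp only [Finset.mem_range, Finset.mem_filter] at *; omega
  · intro i hi; rfl

lemma choose_mul' (n s k : ℕ) (hs : k ≤ s) : (n.choose s) * (s.choose k) = n.choose k * (n - k).choose (s - k) :=
  Nat.choose_mul hs

lemma ap_eq (s : ℕ) : ap s = ∑ k ∈ range (s + 1), (s.choose k : ℤ[X]) * dp k := by
  induction s using Nat.strong_induction_on with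
  | _ s ih =>
    rcases Nat.eq_zero_or_pos s with h0 | hs
    · subst h0; simp [ap_zero, dp_zero]
    · rw [ap_pos hs, Finset.sum_range_succ, dp_pos hs]
      have h1 : ∑ p ∈ range s, (s.choose p : ℤ[X]) * (X - 1) ^ (s - 1 - p) * ap p =
          ∑ p ∈ range s, ∑ k ∈ range (p + 1), (s.choose p : ℤ[X]) * (X - 1) ^ (s - 1 - p) * ((p.choose k : ℤ[X]) * dp k) := by
        apply Finset.sum_congr rfl
        intro p hp
        rw [ih p (Finset.mem_range.mp hp), Finset.mul_sum]
      rw [h1, sum_tri s (fun p k => (s.choose p : ℤ[X]) * (X - 1) ^ (s - 1 - p) * ((p.choose k : ℤ[X]) * dp k))]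
      simp only [Nat.choose_self, Nat.cast_one, one_mul]
      rw [← Finset.sum_add_distrib]
      apply Finset.sum_congr rfl
      intro k hk
      rw [Finset.mem_range] at hk
      rw [← lemQ (s - k)]
      have h2 : (s.choose k : ℤ[X]) * dp k + (s.choose k : ℤ[X]) * dp k * (∑ i ∈ range (s - k), ((s - k).choose i : ℤ[X]) * (X - 1) ^ (s - k - 1 - i) - 1) =
        ∑ i ∈ range (s - k), (s.choose k : ℤ[X]) * dp k * (((s - k).choose i : ℤ[X]) * (X - 1) ^ (s - k - 1 - i)) := by
        rw [← Finset.mul_sum]; ring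
      rw [h2]
      apply Finset.sum_congr rfl
      intro i hi
      rw [Finset.mem_range] at hi
      have h3 := choose_mul' s (k + i) k (by omega)
      have h4 : k + i - k = i := by omega
      rw [h4] at h3
      have h5 : ((s.choose (k + i) : ℕ) : ℤ[X]) * ((k + i).choose k : ℕ) = (s.choose k : ℕ) * ((s - k).choose i : ℕ) := by
        exact_mod_cast congrArg (Nat.cast : ℕ → ℤ[X]) h3
      have h6 : s - 1 - (k + i) = s - k - 1 - i := by omega
      rw [h6]
      calc _ = ((s.choose (k + i) : ℤ[X]) * ((k + i).choose k : ℤ[X])) * (X - 1) ^ (s - k - 1 - i) * dp k := by ring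
        _ = _ := by rw [h5]; ring

/-- `h` side. -/
noncomputable def hh (n r : ℕ) : ℤ[X] := ∑ s ∈ range r, (n.choose s : ℤ[X]) * (X - 1) ^ (r - 1 - s) * ap s
/-- Hilbert side. -/
noncomputable def HH (n j : ℕ) : ℤ[X] := ∑ s ∈ range j, (n.choose s : ℤ[X]) * dp s * q (j - s)

lemma hh_eq (n r : ℕ) (hrn : r ≤ n) :
    hh n r = ∑ j ∈ range r, ((n - (j + 1) - 1).choose (r - (j + 1)) : ℤ[X]) * HH n (j + 1) := by
  have hl : hh n r = ∑ k ∈ range r, dp k * (n.choose k : ℤ[X]) * L (n - k) (r - k) := by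
    unfold hh
    have h1 : ∑ s ∈ range r, (n.choose s : ℤ[X]) * (X - 1) ^ (r - 1 - s) * ap s =
        ∑ s ∈ range r, ∑ k ∈ range (s + 1), (n.choose s : ℤ[X]) * (X - 1) ^ (r - 1 - s) * ((s.choose k : ℤ[X]) * dp k) := by
      apply Finset.sum_congr rfl
      intro p hp
      rw [ap_eq, Finset.mul_sum]
    rw [h1, sum_tri r (fun s k => (n.choose s : ℤ[X]) * (X - 1) ^ (r - 1 - s) * ((s.choose k : ℤ[X]) * dp k))]
    apply Finset.sum_congr rfl
    intro k hk
    rw [Finset.mem_range] at hk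
    unfold L
    rw [Finset.mul_sum]
    apply Finset.sum_congr rfl
    intro i hi
    rw [Finset.mem_range] at hi
    have h3 := choose_mul' n (k + i) k (by omega)
    have h4 : k + i - k = i := by omega
    rw [h4] at h3
    have h5 : ((n.choose (k + i) : ℕ) : ℤ[X]) * ((k + i).choose k : ℕ) = (n.choose k : ℕ) * ((n - k).choose i : ℕ) := by
      exact_mod_cast congrArg (Nat.cast : ℕ → ℤ[X]) h3
    have h6 : r - 1 - (k + i) = r - k - 1 - i := by omega
    rw [h6]
    calc _ = ((n.choose (k + i) : ℤ[X]) * ((k + i).choose k : ℤ[X])) * (X - 1) ^ (r - k - 1 - i) * dp k := by ring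
      _ = _ := by rw [h5]; ring
  have hr : ∑ j ∈ range r, ((n - (j + 1) - 1).choose (r - (j + 1)) : ℤ[X]) * HH n (j + 1) =
      ∑ k ∈ range r, dp k * (n.choose k : ℤ[X]) * Z (n - k) (r - k) := by
    have h1 : ∑ j ∈ range r, ((n - (j + 1) - 1).choose (r - (j + 1)) : ℤ[X]) * HH n (j + 1) =
        ∑ j ∈ range r, ∑ s ∈ range (j + 1), ((n - (j + 1) - 1).choose (r - (j + 1)) : ℤ[X]) * ((n.choose s : ℤ[X]) * dp s * q (j + 1 - s)) := by
      apply Finset.sum_congr rfl
      intro j hj
      unfold HH; rw [Finset.mul_sum]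
    rw [h1, sum_tri r (fun j s => ((n - (j + 1) - 1).choose (r - (j + 1)) : ℤ[X]) * ((n.choose s : ℤ[X]) * dp s * q (j + 1 - s)))]
    apply Finset.sum_congr rfl
    intro k hk
    rw [Finset.mem_range] at hk
    unfold Z
    rw [Finset.mul_sum]
    apply Finset.sum_congr rfl
    intro i hi
    have h1 : n - (k + i + 1) - 1 = n - k - (i + 1) - 1 := by omega
    have h2 : r - (k + i + 1) = r - k - (i + 1) := by omega
    have h3 : k + i + 1 - k = i + 1 := by omega
    rw [h1, h2, h3]; ring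
  rw [hl, hr]
  apply Finset.sum_congr rfl
  intro k hk
  rw [Finset.mem_range] at hk
  rw [lemZ _ _ (by omega)]

end Pool.Agent.H323FY
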