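import Mathlib
import Pool.Agent.H323FY.Alg

set_option autoImplicit false

namespace Pool.Agent.H323FY

open Polynomial Finset

open scoped Classical in
/-- finite chains (with respect to inclusion) of sets satisfying `S`. -/
noncomputable def C {α : Type} [Fintype α] (S : Finset α → Prop) : Finset (Finset (Finset α)) :=
  univ.filter (fun σ => IsChain (· ⊆ ·) (σ : Set (Finset α)) ∧ ∀ F ∈ σ, S F)

section
variable {α : Type} [Fintype α]

open scoped Classical in
/-- the subsets satisfying `S`. -/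
noncomputable def fil (S : Finset α → Prop) : Finset (Finset α) := univ.filter S

lemma mem_fil {S : Finset α → Prop} {F : Finset α} : F ∈ fil S ↔ S F := by
  unfold fil; simp

lemma mem_C {S : Finset α → Prop} {σ : Finset (Finset α)} :
    σ ∈ C S ↔ IsChain (· ⊆ ·) (σ : Set (Finset α)) ∧ ∀ F ∈ σ, S F := by
  unfold C; simp

lemma C_congr {S T : Finset α → Prop} (h : ∀ F, S F ↔ T F) : C S = C T := by
  have : S = T := by funext F; exact propext (h F)
  rw [this]

open scoped Classical in
lemma cone (S : Finset α → Prop) (v : Finset α) (hv : S v) (hcmp : ∀ F, S F → F ⊆ v ∨ v ⊆ F)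
    (g : ℕ → ℤ[X]) :
    ∑ σ ∈ C S, g σ.card = ∑ σ ∈ C (fun F => S F ∧ F ≠ v), (g σ.card + g (σ.card + 1)) := by
  rw [← Finset.sum_filter_add_sum_filter_not (C S) (fun σ => v ∈ σ), Finset.sum_add_distrib, add_comm]
  congr 1
  · apply Finset.sum_congr _ (fun _ _ => rfl)
    ext σ
    simp only [Finset.mem_filter, mem_C]
    constructor
    · rintro ⟨⟨h1, h2⟩, h3⟩
      exact ⟨h1, fun F hF => ⟨h2 F hF, fun h => h3 (h ▸ hF)⟩⟩
    · rintro ⟨h1, h2⟩
      exact ⟨⟨h1, fun F hF => (h2 F hF).1⟩, fun h => (h2 v h).2 rfl⟩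
  · symm
    apply Finset.sum_nbij' (fun σ => insert v σ) (fun σ => σ.erase v)
    · intro σ hσ
      rw [mem_C] at hσ
      rw [Finset.mem_filter, mem_C]
      refine ⟨⟨?_, ?_⟩, Finset.mem_insert_self _ _⟩
      · rw [Finset.coe_insert]
        apply hσ.1.insert
        intro F hF _
        exact (hcmp F (hσ.2 F hF).1).symm
      · intro F hF
        rcases Finset.mem_insert.mp hF with h | h
        · rw [h]; exact hv
        · exact (hσ.2 F h).1
    · intro σ hσ
      rw [Finset.mem_filter, mem_C] at hσ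
      rw [mem_C]
      refine ⟨hσ.1.1.mono (by simp), ?_⟩
      intro F hF
      rw [Finset.mem_erase] at hF
      exact ⟨hσ.1.2 F hF.2, hF.1⟩
    · intro σ hσ
      rw [mem_C] at hσ
      apply Finset.erase_insert
      intro h; exact (hσ.2 v h).2 rfl
    · intro σ hσ
      rw [Finset.mem_filter] at hσ
      exact Finset.insert_erase hσ.2
    · intro σ hσ
      rw [mem_C] at hσ
      rw [Finset.card_insert_of_notMem]
      intro h; exact (hσ.2 v h).2 rfl

/-- top element of a nonempty chain. -/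
lemma exists_top (σ : Finset (Finset α)) (hσ : σ.Nonempty) (hc : IsChain (· ⊆ ·) (σ : Set (Finset α))) :
    ∃ P ∈ σ, ∀ F ∈ σ, F ⊆ P := by
  obtain ⟨P, hP, hmax⟩ := Finset.exists_max_image σ Finset.card hσ
  refine ⟨P, hP, fun F hF => ?_⟩
  rcases eq_or_ne F P with h | h
  · rw [h]
  · rcases hc hF hP h with h1 | h1
    · exact h1
    · exact absurd (Finset.eq_of_subset_of_card_le h1 (hmax F hF)).symm h

open scoped Classical in
lemma peel (Q : Finset α → Prop) (hQ : ∀ P F, Q P → F ⊂ P → Q F) (f : ℕ → ℤ[X]) :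
    ∑ σ ∈ C (fun F => F.Nonempty ∧ Q F), f σ.card =
      f 0 + ∑ P ∈ fil (fun P : Finset α => P.Nonempty ∧ Q P),
        ∑ τ ∈ C (fun F => F.Nonempty ∧ F ⊂ P), f (τ.card + 1) := by
  have h0 : (∅ : Finset (Finset α)) ∈ C (fun F => F.Nonempty ∧ Q F) := by
    rw [mem_C]; simp
  rw [← Finset.add_sum_erase _ _ h0, Finset.card_empty]
  congr 1
  rw [Finset.sum_sigma']
  symm
  apply Finset.sum_nbij (fun x => insert x.1 x.2)
  · rintro ⟨P, τ⟩ hx
    simp only [Finset.mem_sigma, mem_fil, mem_C] at hx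
    rw [Finset.mem_erase, mem_C]
    refine ⟨Finset.insert_ne_empty _ _, ?_, ?_⟩
    · rw [Finset.coe_insert]
      apply hx.2.1.insert
      intro F hF _
      right; exact (hx.2.2 F hF).2.subset
    · intro F hF
      rcases Finset.mem_insert.mp hF with h | h
      · rw [h]; exact hx.1
      · exact ⟨(hx.2.2 F h).1, hQ P F hx.1.2 (hx.2.2 F h).2⟩
  · rintro ⟨P, τ⟩ hx ⟨P', τ'⟩ hx' heq
    simp only [Finset.coe_sigma, Set.mem_sigma_iff, Finset.mem_coe, mem_fil, mem_C] at hx hx'
    dsimp only at heq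
    have hPP : P = P' := by
      have h1 : P ∈ insert P' τ' := heq ▸ Finset.mem_insert_self _ _
      have h2 : P' ∈ insert P τ := heq.symm ▸ Finset.mem_insert_self _ _
      rcases Finset.mem_insert.mp h1 with h | h
      · exact h
      · rcases Finset.mem_insert.mp h2 with h' | h'
        · exact h'.symm
        · exact absurd ((hx.2.2 _ h').2.trans (hx'.2.2 _ h).2) (ssubset_irrefl _)
    subst hPP
    have h1 : τ = (insert P τ).erase P := by
      rw [Finset.erase_insert]; intro h; exact ssubset_irrefl _ (hx.2.2 _ h).2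
    have h2 : τ' = (insert P τ').erase P := by
      rw [Finset.erase_insert]; intro h; exact ssubset_irrefl _ (hx'.2.2 _ h).2
    have h3 : τ = τ' := by rw [h1, heq, ← h2]
    rw [h3]
  · intro σ hσ
    simp only [Finset.coe_erase, Set.mem_sdiff, Finset.mem_coe, mem_C, Set.mem_singleton_iff] at hσ
    obtain ⟨P, hP, hmax⟩ := exists_top σ (Finset.nonempty_iff_ne_empty.mpr hσ.2) hσ.1.1
    refine ⟨⟨P, σ.erase P⟩, ?_, ?_⟩
    · simp only [Finset.coe_sigma, Set.mem_sigma_iff, Finset.mem_coe, mem_fil, mem_C]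
      refine ⟨hσ.1.2 P hP, hσ.1.1.mono (by simp), ?_⟩
      intro F hF
      rw [Finset.mem_erase] at hF
      exact ⟨(hσ.1.2 F hF.2).1, (hmax F hF.2).ssubset_of_ne hF.1⟩
    · exact Finset.insert_erase hP
  · rintro ⟨P, τ⟩ hx
    simp only [Finset.mem_sigma, mem_fil, mem_C] at hx
    rw [Finset.card_insert_of_notMem]
    intro h; exact ssubset_irrefl _ (hx.2.2 _ h).2

lemma card_chain_le (τ : Finset (Finset α)) (hc : IsChain (· ⊆ ·) (τ : Set (Finset α))) (P : Finset α)
    (h : ∀ F ∈ τ, F.Nonempty ∧ F.card < P.card) : τ.card ≤ P.card - 1 := by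
  have h1 : τ.card ≤ (Finset.Ioo 0 P.card).card := by
    apply Finset.card_le_card_of_injOn Finset.card
    · intro F hF
      have := h F hF
      simp only [Finset.coe_Ioo, Set.mem_Ioo]
      exact ⟨Finset.card_pos.mpr this.1, this.2⟩
    · intro F hF G hG hFG
      by_contra hne
      rcases hc hF hG hne with h1 | h1
      · exact hne (Finset.eq_of_subset_of_card_le h1 hFG.ge)
      · exact hne (Finset.eq_of_subset_of_card_le h1 hFG.le).symm
  simpa using h1

open scoped Classical in
lemma sum_ssubsets (P : Finset α) (g : ℕ → ℤ[X]) :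
    ∑ F ∈ fil (fun F : Finset α => F ⊂ P), g F.card = ∑ p ∈ range P.card, (P.card.choose p : ℤ[X]) * g p := by
  have h := Finset.sum_powerset_apply_card g (x := P)
  rw [Finset.sum_range_succ] at h
  have h1 : P.powerset = insert P (fil (fun F : Finset α => F ⊂ P)) := by
    ext F
    simp only [Finset.mem_powerset, Finset.mem_insert, mem_fil]
    constructor
    · intro h
      rcases eq_or_ne F P with h1 | h1
      · left; exact h1
      · right; exact h.ssubset_of_ne h1
    · rintro (h | h)
      · rw [h]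
      · exact h.subset
  rw [h1, Finset.sum_insert (by simp [mem_fil])] at h
  simp only [Nat.choose_self, one_smul, nsmul_eq_mul] at h
  rw [add_comm] at h
  exact add_right_cancel h

open scoped Classical in
lemma sum_card_lt (r : ℕ) (hr : r ≤ Fintype.card α + 1) (g : ℕ → ℤ[X]) :
    ∑ F ∈ fil (fun F : Finset α => F.card < r), g F.card =
      ∑ p ∈ range r, ((Fintype.card α).choose p : ℤ[X]) * g p := by
  have h := Finset.sum_powerset_apply_card (fun m => if m < r then g m else 0) (x := (univ : Finset α))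
  unfold fil
  rw [Finset.sum_filter]
  rw [Finset.powerset_univ] at h
  refine (Finset.sum_congr rfl (fun a _ => ?_)).trans (h.trans ?_)
  · congr
  rw [Finset.card_univ]
  rw [← Finset.sum_subset (Finset.range_subset_range.mpr hr)]
  · apply Finset.sum_congr rfl
    intro m hm
    rw [if_pos (Finset.mem_range.mp hm), nsmul_eq_mul]
  · intro m _ hm
    rw [if_neg (by simpa using hm), smul_zero]

open scoped Classical in
lemma sum_boolean (P : Finset α) (hP : P.Nonempty) :
    ∑ τ ∈ C (fun F : Finset α => F.Nonempty ∧ F ⊂ P), (X - 1 : ℤ[X]) ^ (P.card - 1 - τ.card) = ap P.card := by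
  induction hn : P.card using Nat.strong_induction_on generalizing P with
  | _ s ih =>
    have hs : 0 < s := hn ▸ Finset.card_pos.mpr hP
    rw [peel (fun F => F ⊂ P) (fun P' F h1 h2 => h2.trans h1) (fun i => (X - 1 : ℤ[X]) ^ (s - 1 - i)), ap_pos hs]
    have h1 : ∑ P' ∈ fil (fun P' : Finset α => P'.Nonempty ∧ P' ⊂ P),
        ∑ τ ∈ C (fun F => F.Nonempty ∧ F ⊂ P'), (X - 1 : ℤ[X]) ^ (s - 1 - (τ.card + 1)) =
        ∑ P' ∈ fil (fun P' : Finset α => P'.Nonempty ∧ P' ⊂ P), (X - 1) ^ (s - 1 - P'.card) * ap P'.card := by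
      apply Finset.sum_congr rfl
      intro P' hP'
      simp only [mem_fil] at hP'
      have hlt : P'.card < s := hn ▸ Finset.card_lt_card hP'.2
      rw [← ih P'.card hlt P' hP'.1 rfl, Finset.mul_sum]
      apply Finset.sum_congr rfl
      intro τ hτ
      rw [mem_C] at hτ
      have hle := card_chain_le τ hτ.1 P' (fun F hF => ⟨(hτ.2 F hF).1, Finset.card_lt_card (hτ.2 F hF).2⟩)
      have hpos := Finset.card_pos.mpr hP'.1
      rw [← pow_add]; congr 1; omega
    rw [h1]
    have h2 : (fil (fun P' : Finset α => P' ⊂ P)) = insert ∅ (fil (fun P' : Finset α => P'.Nonempty ∧ P' ⊂ P)) := by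
      ext F
      simp only [Finset.mem_insert, mem_fil]
      constructor
      · intro h
        rcases F.eq_empty_or_nonempty with h1 | h1
        · left; exact h1
        · right; exact ⟨h1, h⟩
      · rintro (h | h)
        · rw [h]; exact hP.empty_ssubset
        · exact h.2
    have h3 := sum_ssubsets P (fun p => (X - 1 : ℤ[X]) ^ (s - 1 - p) * ap p)
    rw [h2, Finset.sum_insert (by simp [mem_fil])] at h3
    simp only [Finset.card_empty, Nat.sub_zero, ap_zero, mul_one] at h3
    rw [Nat.sub_zero, h3, hn]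
    apply Finset.sum_congr rfl
    intro p _; ring

open scoped Classical in
lemma sum_proper (r : ℕ) (hr : 1 ≤ r) (hrn : r ≤ Fintype.card α) :
    ∑ τ ∈ C (fun F : Finset α => F.Nonempty ∧ F.card < r), (X - 1 : ℤ[X]) ^ (r - 1 - τ.card) = hh (Fintype.card α) r := by
  rw [peel (fun F => F.card < r) (fun P' F h1 h2 => (Finset.card_lt_card h2).trans h1) (fun i => (X - 1 : ℤ[X]) ^ (r - 1 - i))]
  unfold hh
  have h1 : ∑ P' ∈ fil (fun P' : Finset α => P'.Nonempty ∧ P'.card < r),
      ∑ τ ∈ C (fun F => F.Nonempty ∧ F ⊂ P'), (X - 1 : ℤ[X]) ^ (r - 1 - (τ.card + 1)) =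
      ∑ P' ∈ fil (fun P' : Finset α => P'.Nonempty ∧ P'.card < r), (X - 1) ^ (r - 1 - P'.card) * ap P'.card := by
    apply Finset.sum_congr rfl
    intro P' hP'
    simp only [mem_fil] at hP'
    rw [← sum_boolean P' hP'.1, Finset.mul_sum]
    apply Finset.sum_congr rfl
    intro τ hτ
    rw [mem_C] at hτ
    have hle := card_chain_le τ hτ.1 P' (fun F hF => ⟨(hτ.2 F hF).1, Finset.card_lt_card (hτ.2 F hF).2⟩)
    have hpos := Finset.card_pos.mpr hP'.1
    rw [← pow_add]; congr 1; omega
  rw [h1]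
  have h2 : (fil (fun P' : Finset α => P'.card < r)) = insert ∅ (fil (fun P' : Finset α => P'.Nonempty ∧ P'.card < r)) := by
    ext F
    simp only [Finset.mem_insert, mem_fil]
    constructor
    · intro h
      rcases F.eq_empty_or_nonempty with h1 | h1
      · left; exact h1
      · right; exact ⟨h1, h⟩
    · rintro (h | h)
      · rw [h]; simp; omega
      · exact h.2
  have h3 := sum_card_lt (α := α) r (by omega) (fun p => (X - 1 : ℤ[X]) ^ (r - 1 - p) * ap p)
  rw [h2, Finset.sum_insert (by simp [mem_fil])] at h3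
  simp only [Finset.card_empty, Nat.sub_zero, ap_zero, mul_one] at h3
  rw [Nat.sub_zero, h3]
  apply Finset.sum_congr rfl
  intro p _; ring

/-- flats of the uniform matroid. -/
def IsFl (r : ℕ) (F : Finset α) : Prop := F.card < r ∨ F = univ

open scoped Classical in
lemma sum_lattice (r : ℕ) (hr : 1 ≤ r) (hrn : r ≤ Fintype.card α) :
    ∑ σ ∈ C (fun F : Finset α => IsFl r F), (X - 1 : ℤ[X]) ^ (r + 1 - σ.card) = X ^ 2 * hh (Fintype.card α) r := by
  have huniv : (univ : Finset α).card = Fintype.card α := Finset.card_univ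
  rw [cone (fun F => IsFl r F) univ (Or.inr rfl) (fun F _ => Or.inl (Finset.subset_univ F)) (fun i => (X - 1 : ℤ[X]) ^ (r + 1 - i))]
  have hne : (∅ : Finset α) ≠ univ := by
    intro h
    have := congrArg Finset.card h
    rw [huniv, Finset.card_empty] at this
    omega
  rw [cone (fun F => IsFl r F ∧ F ≠ univ) ∅ ⟨Or.inl (by simp; omega), hne⟩ (fun F _ => Or.inr (Finset.empty_subset F))
    (fun i => (X - 1 : ℤ[X]) ^ (r + 1 - i) + (X - 1 : ℤ[X]) ^ (r + 1 - (i + 1)))]
  have hC : C (fun F : Finset α => (IsFl r F ∧ F ≠ univ) ∧ F ≠ ∅) = C (fun F : Finset α => F.Nonempty ∧ F.card < r) := by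
    apply C_congr
    intro F
    unfold IsFl
    constructor
    · rintro ⟨⟨h1 | h1, h2⟩, h3⟩
      · exact ⟨Finset.nonempty_iff_ne_empty.mpr h3, h1⟩
      · exact absurd h1 h2
    · rintro ⟨h1, h2⟩
      refine ⟨⟨Or.inl h2, ?_⟩, Finset.nonempty_iff_ne_empty.mp h1⟩
      intro h
      rw [h, huniv] at h2; omega
  rw [hC, ← sum_proper r hr hrn, Finset.mul_sum]
  apply Finset.sum_congr rfl
  intro τ hτ
  rw [mem_C] at hτ
  have hle : τ.card ≤ r - 1 := by
    have h1 : τ.card ≤ (Finset.Ioo 0 r).card := by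
      apply Finset.card_le_card_of_injOn Finset.card
      · intro F hF
        have := hτ.2 F hF
        simp only [Finset.coe_Ioo, Set.mem_Ioo]
        exact ⟨Finset.card_pos.mpr this.1, this.2⟩
      · intro F hF G hG hFG
        by_contra hne
        rcases hτ.1 hF hG hne with h1 | h1
        · exact hne (Finset.eq_of_subset_of_card_le h1 hFG.ge)
        · exact hne (Finset.eq_of_subset_of_card_le h1 hFG.le).symm
    simpa using h1
  obtain ⟨a, ha⟩ : ∃ a, r = τ.card + 1 + a := ⟨r - 1 - τ.card, by omega⟩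
  have h1 : r + 1 - τ.card = a + 2 := by omega
  have h2 : r + 1 - (τ.card + 1) = a + 1 := by omega
  have h3 : r + 1 - (τ.card + 1 + 1) = a := by omega
  have h4 : r - 1 - τ.card = a := by omega
  rw [h1, h2, h3, h4]
  ring

end

end Pool.Agent.H323FY
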