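import Mathlib

set_option autoImplicit false

namespace Pool.Agent.H323FY

open Finset

/-- `F` is a flat of the uniform matroid `U_{n,r}` (`1 ≤ r ≤ n`) on the ground set `Fin n`: the ground set
itself, or a subset with at most `r - 1` elements. -/
def IsFlat (n r : ℕ) (F : Finset (Fin n)) : Prop := F.card < r ∨ F = univ

instance (n r : ℕ) : DecidablePred (IsFlat n r) :=
  fun F => inferInstanceAs (Decidable (F.card < r ∨ F = univ))

/-- The lattice of flats `L(U_{n,r})`, ordered by inclusion. -/
abbrev Flats (n r : ℕ) : Type := {F : Finset (Fin n) // IsFlat n r F}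

/-- The nonempty proper flats of `U_{n,r}`. -/
abbrev PFlats (n r : ℕ) : Type := {F : Finset (Fin n) // IsFlat n r F ∧ F ≠ ∅ ∧ F ≠ univ}

open scoped Classical in
/-- The order complex of a finite poset `P`, as the finite set of its faces: the chains of `P`,
including the empty chain. -/
noncomputable def orderComplex (P : Type) [Fintype P] [PartialOrder P] : Finset (Finset P) :=
  univ.filter (fun s => IsChain (· ≤ ·) (s : Set P))

open Polynomial in
/-- The `h`-polynomial `∑_{i=0}^{d} f_{i-1} (t-1)^{d-i}` of a finite simplicial complex, given as the finite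
set `K` of its faces (including the empty face); `d = dim + 1` is the largest number of vertices of a face
and `f_{i-1}` is the number of faces with `i` vertices. -/
noncomputable def hPoly {V : Type} (K : Finset (Finset V)) : ℤ[X] :=
  ∑ i ∈ range (K.sup Finset.card + 1),
    ((K.filter (fun s => s.card = i)).card : ℤ[X]) * (X - 1) ^ (K.sup Finset.card - i)

open MvPolynomial in
/-- The ideal `I + J` of the Chow ring of `U_{n,r}`: `I` is generated by the products `x_F x_G` with `F, G`
incomparable, and `J` by the linear forms `∑_{F ∋ i} x_F - ∑_{F ∋ j} x_F`. -/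
noncomputable def chowIdeal (n r : ℕ) : Ideal (MvPolynomial (PFlats n r) ℚ) :=
  Ideal.span ({p | ∃ F G : PFlats n r, ¬ F.1 ⊆ G.1 ∧ ¬ G.1 ⊆ F.1 ∧ p = X F * X G} ∪
    {p | ∃ i j : Fin n, p = (∑ F : PFlats n r with i ∈ F.1, X F) - ∑ F : PFlats n r with j ∈ F.1, X F})

/-- The Chow ring `A(U_{n,r})` over `ℚ`. -/
abbrev ChowRing (n r : ℕ) : Type := MvPolynomial (PFlats n r) ℚ ⧸ chowIdeal n r

/-- The degree `k` piece `A(U_{n,r})_k`: the image of the homogeneous polynomials of degree `k`. -/
noncomputable def chowPiece (n r k : ℕ) : Submodule ℚ (ChowRing n r) :=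
  (MvPolynomial.homogeneousSubmodule (PFlats n r) ℚ k).map (Ideal.Quotient.mkₐ ℚ (chowIdeal n r)).toLinearMap

/-- The Hilbert series `H(A(U_{n,r}), t) = ∑_k dim_ℚ A(U_{n,r})_k t^k`. -/
noncomputable def hilbertSeries (n r : ℕ) : PowerSeries ℤ :=
  PowerSeries.mk (fun k => (Module.finrank ℚ (chowPiece n r k) : ℤ))

end Pool.Agent.H323FY
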