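import Mathlib
import Pool.Agent.H323FY.Chains

set_option autoImplicit false
set_option linter.unusedSectionVars false

namespace Pool.Agent.H323FY

open Finset

/-- coefficient of the degree functional. -/
def cc (N f d D : ℕ) : ℤ :=
  if f ≤ D then (-1) ^ (d - 1) * ((d - 1).choose (D - f) : ℤ) * ((N - f - 1).choose (D - f) : ℤ) else 0

def W (e : ℕ → ℕ) (s : ℕ) : ℕ := ∑ u ∈ range (s + 1), e u

def psi (e : ℕ → ℕ) : ℕ → ℕ → ℤ
  | _, 0 => 1
  | N, s + 1 => if e (s + 1) = 0 then psi e N s else cc N (s + 1) (e (s + 1)) (W e (s + 1)) * psi e (s + 1) s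

lemma psi_skip (e : ℕ → ℕ) (N f : ℕ) : ∀ s, f ≤ s → (∀ u, f < u → u ≤ s → e u = 0) → psi e N s = psi e N f := by
  intro s
  induction s with
  | zero => intro h _; have : f = 0 := by omega
            rw [this]
  | succ s ih =>
    intro h hz
    rcases eq_or_ne f (s + 1) with h1 | h1
    · rw [h1]
    · rw [psi, if_pos (hz (s + 1) (by omega) le_rfl), ih (by omega) (fun u h2 h3 => hz u h2 (by omega))]

lemma psi_congr (e e' : ℕ → ℕ) : ∀ s N, (∀ u ≤ s, e u = e' u) → psi e N s = psi e' N s := by
  intro s
  induction s with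
  | zero => intro N _; rfl
  | succ s ih =>
    intro N h
    have hW : W e (s + 1) = W e' (s + 1) := by
      unfold W; apply Finset.sum_congr rfl
      intro u hu; exact h u (by rw [Finset.mem_range] at hu; omega)
    rw [psi, psi, h (s + 1) le_rfl, hW, ih _ (fun u hu => h u (by omega)), ih _ (fun u hu => h u (by omega))]

lemma psi_ne (e : ℕ → ℕ) : ∀ s N, psi e N s ≠ 0 → ∀ u, 1 ≤ u → u ≤ s → e u ≠ 0 → u ≤ W e u := by
  intro s
  induction s with
  | zero => intro N _ u h1 h2; omega
  | succ s ih =>
    intro N h u h1 h2 h3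
    rw [psi] at h
    by_cases h0 : e (s + 1) = 0
    · rw [if_pos h0] at h
      have : u ≠ s + 1 := by rintro rfl; exact h3 h0
      exact ih N h u h1 (by omega) h3
    · rw [if_neg h0] at h
      rcases eq_or_ne u (s + 1) with h4 | h4
      · have := left_ne_zero_of_mul h
        unfold cc at this
        rw [h4]
        by_contra hcon
        rw [if_neg hcon] at this
        exact this rfl
      · exact ih _ (right_ne_zero_of_mul h) u h1 (by omega) h3

lemma psi_nonvanish (e : ℕ → ℕ) : ∀ s N, (∀ u, 1 ≤ u → u ≤ s → e u ≠ 0 → W e u = u) → psi e N s ≠ 0 := by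
  intro s
  induction s with
  | zero => intro N _; simp [psi]
  | succ s ih =>
    intro N h
    rw [psi]
    by_cases h0 : e (s + 1) = 0
    · rw [if_pos h0]; exact ih N (fun u h1 h2 h3 => h u h1 (by omega) h3)
    · rw [if_neg h0, h (s + 1) (by omega) le_rfl h0]
      apply mul_ne_zero
      · unfold cc
        simp
      · exact ih _ (fun u h1 h2 h3 => h u h1 (by omega) h3)

section
variable {α : Type} [Fintype α] [DecidableEq α]

/-- level exponents. -/
noncomputable def lev (m : Finset α →₀ ℕ) (s : ℕ) : ℕ := m.sum (fun F a => if F.card = s then a else 0)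

lemma lev_add (m m' : Finset α →₀ ℕ) (s : ℕ) : lev (m + m') s = lev m s + lev m' s := by
  unfold lev
  rw [Finsupp.sum_add_index']
  · intro a; simp
  · intro a b c; split_ifs <;> simp

lemma lev_zero (s : ℕ) : lev (0 : Finset α →₀ ℕ) s = 0 := by simp [lev]

lemma lev_single (T : Finset α) (a s : ℕ) : lev (Finsupp.single T a) s = if T.card = s then a else 0 := by
  unfold lev
  rw [Finsupp.sum_single_index]
  simp

lemma lev_eq_zero (m : Finset α →₀ ℕ) (s : ℕ) (h : ∀ F ∈ m.support, F.card ≠ s) : lev m s = 0 := by
  unfold lev Finsupp.sum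
  apply Finset.sum_eq_zero
  intro F hF
  dsimp only
  rw [if_neg (h F hF)]

lemma W_lev (m : Finset α →₀ ℕ) (s : ℕ) (h : ∀ F ∈ m.support, F.card ≤ s) : W (lev m) s = m.degree := by
  unfold W lev Finsupp.sum
  rw [Finset.sum_comm, Finsupp.degree_apply]
  apply Finset.sum_congr rfl
  intro F hF
  rw [Finset.sum_ite_eq, if_pos]
  rw [Finset.mem_range]
  exact Nat.lt_succ_of_le (h F hF)

lemma W_add (e e' : ℕ → ℕ) (s : ℕ) : W (fun u => e u + e' u) s = W e s + W e' s := by
  unfold W; rw [Finset.sum_add_distrib]

/-- the degree functional on exponents, with ground set `F`. -/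
noncomputable def psiF (F : Finset α) (m : Finset α →₀ ℕ) : ℤ := psi (lev m) F.card (F.card - 1)

lemma psiF_zero (F : Finset α) : psiF F (0 : Finset α →₀ ℕ) = 1 := by
  unfold psiF
  rw [psi_skip _ _ 0 _ (by omega) (fun u _ _ => lev_zero u)]
  rfl

lemma PEEL (F0 T : Finset α) (m : Finset α →₀ ℕ) (d : ℕ) (hd : d ≠ 0) (hm : ∀ F ∈ m.support, F ⊂ T) (hT : T.Nonempty)
    (hTF : T ⊂ F0) : psiF F0 (m + Finsupp.single T d) = cc F0.card T.card d (m.degree + d) * psiF T m := by
  have hlt := Finset.card_lt_card hTF
  have hpos := Finset.card_pos.mpr hT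
  obtain ⟨t, ht⟩ : ∃ t, T.card = t + 1 := ⟨T.card - 1, by omega⟩
  unfold psiF
  rw [psi_skip _ _ T.card (F0.card - 1) (by omega)]
  · have hlev : lev (m + Finsupp.single T d) (t + 1) = d := by
      rw [lev_add, lev_single, if_pos ht, lev_eq_zero, zero_add]
      intro F hF
      have := Finset.card_lt_card (hm F hF)
      omega
    have hW : W (lev (m + Finsupp.single T d)) (t + 1) = m.degree + d := by
      rw [W_lev, map_add, Finsupp.degree_single]
      intro F hF
      have h1 := Finsupp.support_add hF
      rw [Finset.mem_union] at h1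
      rcases h1 with h1 | h1
      · have := Finset.card_lt_card (hm F h1); omega
      · have := Finsupp.support_single_subset h1
        rw [Finset.mem_singleton] at this
        rw [this, ht]
    rw [ht]
    rw [psi, hlev, if_neg hd, hW]
    congr 1
    rw [Nat.add_sub_cancel]
    apply psi_congr
    intro u hu
    rw [lev_add, lev_single, if_neg (by omega), add_zero]
  · intro u h1 h2
    rw [lev_add, lev_single, if_neg (by omega), add_zero, lev_eq_zero]
    intro F hF
    have := Finset.card_lt_card (hm F hF)
    omega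

/-- chain exponents with top `T`. -/
inductive Ch : Finset α → (Finset α →₀ ℕ) → Prop
  | zero : Ch ∅ 0
  | step {P T : Finset α} {m : Finset α →₀ ℕ} {a : ℕ} : Ch P m → P ⊂ T → a ≠ 0 → Ch T (m + Finsupp.single T a)

omit [Fintype α] [DecidableEq α] in
lemma ssub_ne {P T : Finset α} (h : P ⊂ T) : T.Nonempty := by
  obtain ⟨x, hx, _⟩ := Finset.exists_of_ssubset h
  exact ⟨x, hx⟩

lemma Ch.supp {T : Finset α} {m : Finset α →₀ ℕ} (h : Ch T m) : ∀ F ∈ m.support, F ⊆ T ∧ F.Nonempty := by
  induction h with
  | zero => intro F hF; simp at hF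
  | step h1 h2 h3 ih =>
    intro F hF
    have h4 := Finsupp.support_add hF
    rw [Finset.mem_union] at h4
    rcases h4 with h4 | h4
    · exact ⟨(ih F h4).1.trans h2.subset, (ih F h4).2⟩
    · have := Finsupp.support_single_subset h4
      rw [Finset.mem_singleton] at this
      rw [this]
      exact ⟨subset_rfl, ssub_ne h2⟩

/-- `G` is comparable to all sets in the support. -/
def Cmp (G : Finset α) (m : Finset α →₀ ℕ) : Prop := ∀ F ∈ m.support, F ⊆ G ∨ G ⊆ F

lemma card_between (T F0 : Finset α) (h : T ⊆ F0) (k : ℕ) :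
    (fil (fun G : Finset α => T ⊆ G ∧ G ⊆ F0 ∧ G.card = T.card + k)).card = (F0.card - T.card).choose k := by
  rw [← Finset.card_sdiff_of_subset h, ← Finset.card_powersetCard]
  apply Finset.card_nbij' (fun G => G \ T) (fun Y => Y ∪ T)
  · intro G hG
    rw [Finset.mem_coe, mem_fil] at hG
    rw [Finset.mem_coe, Finset.mem_powersetCard]
    refine ⟨Finset.sdiff_subset_sdiff hG.2.1 subset_rfl, ?_⟩
    rw [Finset.card_sdiff_of_subset hG.1]; omega
  · intro Y hY
    rw [Finset.mem_coe, Finset.mem_powersetCard] at hY
    rw [Finset.mem_coe, mem_fil]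
    refine ⟨Finset.subset_union_right, Finset.union_subset (hY.1.trans Finset.sdiff_subset) h, ?_⟩
    rw [Finset.card_union_of_disjoint, hY.2, add_comm]
    exact Finset.disjoint_of_subset_left hY.1 Finset.sdiff_disjoint
  · intro G hG
    rw [Finset.mem_coe, mem_fil] at hG
    exact Finset.sdiff_union_of_subset hG.1
  · intro Y hY
    rw [Finset.mem_coe, Finset.mem_powersetCard] at hY
    dsimp only
    rw [Finset.union_sdiff_right, Finset.sdiff_eq_self_iff_disjoint]
    exact Finset.disjoint_of_subset_left hY.1 Finset.sdiff_disjoint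

lemma cc_one (N g D : ℕ) : cc N g 1 (D + 1) = if g = D + 1 then 1 else 0 := by
  unfold cc
  split_ifs with h1 h2 h2
  · subst h2; simp
  · have : D + 1 - g ≠ 0 := by omega
    obtain ⟨k, hk⟩ := Nat.exists_eq_succ_of_ne_zero this
    rw [hk]; simp
  · omega
  · rfl

lemma num1 (N f d D : ℕ) :
    ((if f ≤ D then (N - f - 1).choose (D - f) else 0 : ℕ) : ℤ) * cc (D + 1) f d D = cc N f d D := by
  unfold cc
  split_ifs with h
  · have : D + 1 - f - 1 = D - f := by omega
    rw [this, Nat.choose_self]; push_cast; ring
  · simp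

lemma num2 (N f d D : ℕ) (hd : d ≠ 0) (hf : f < N) :
    ((if f < D + 1 then (N - f).choose (D + 1 - f) else 0 : ℕ) : ℤ) * cc (D + 1) f d D
      + cc N f (d + 1) (D + 1) + cc N f d (D + 1) = cc N f d D := by
  obtain ⟨c, rfl⟩ : ∃ c, d = c + 1 := ⟨d - 1, by omega⟩
  obtain ⟨k, rfl⟩ : ∃ k, N = f + k + 1 := ⟨N - f - 1, by omega⟩
  unfold cc
  have e1 : f + k + 1 - f - 1 = k := by omega
  have e2 : f + k + 1 - f = k + 1 := by omega
  have e3 : c + 1 + 1 - 1 = c + 1 := by omega
  have e4 : c + 1 - 1 = c := by omega
  rcases le_or_gt f D with h | h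
  · obtain ⟨j, rfl⟩ : ∃ j, D = f + j := ⟨D - f, by omega⟩
    have e5 : f + j - f = j := by omega
    have e6 : f + j + 1 - f = j + 1 := by omega
    have e7 : f + j + 1 - f - 1 = j := by omega
    rw [if_pos (by omega), if_pos h, if_pos (by omega), if_pos (by omega), if_pos h]
    rw [e7, e1, e2, e3, e4, e5, e6, Nat.choose_self, Nat.choose_succ_succ k j, Nat.choose_succ_succ c j]
    push_cast
    rw [pow_succ]
    ring
  · rw [if_neg (by omega : ¬ f < D + 1), if_neg (by omega : ¬ f ≤ D), if_neg (by omega : ¬ f ≤ D)]
    rcases eq_or_ne f (D + 1) with h1 | h1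
    · subst h1
      rw [if_pos le_rfl, if_pos le_rfl, e3, e4]
      simp only [Nat.sub_self, Nat.choose_zero_right]
      push_cast
      rw [pow_succ]; ring
    · rw [if_neg (by omega), if_neg (by omega)]; simp

lemma cc_vanish (N f d D : ℕ) (h : ¬ (D + 2 ≤ f + d)) (hd : d ≠ 0) : cc N f d (D + 1) = 0 := by
  unfold cc
  split_ifs with h1
  · rw [Nat.choose_eq_zero_of_lt (show d - 1 < D + 1 - f by omega)]; simp
  · rfl

theorem rel {P : Finset α} {m : Finset α →₀ ℕ} (h : Ch P m) : ∀ (F0 : Finset α) (a : α), P ⊂ F0 → a ∈ F0 →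
    m.degree + 2 ≤ F0.card →
    ∑ G ∈ fil (fun G : Finset α => G ⊂ F0 ∧ a ∈ G ∧ Cmp G m), psiF F0 (m + Finsupp.single G 1) = psiF F0 m := by
  induction h with
  | zero =>
    intro F0 a _ ha hdeg
    rw [psiF_zero]
    have hdeg' : 2 ≤ F0.card := by simpa using hdeg
    rw [Finset.sum_eq_single {a}]
    · rw [PEEL F0 {a} 0 1 one_ne_zero (by simp) (by simp), psiF_zero]
      · simp [cc]
      · refine (Finset.singleton_subset_iff.mpr ha).ssubset_of_ne ?_
        intro h; rw [← h, Finset.card_singleton] at hdeg'; omega
    · intro G hG hne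
      rw [mem_fil] at hG
      rw [PEEL F0 G 0 1 one_ne_zero (by simp) ⟨a, hG.2.1⟩ hG.1]
      have : cc F0.card G.card 1 (0 + 1) = 0 := by
        rw [cc_one, if_neg]
        intro h
        rw [zero_add, Finset.card_eq_one] at h
        obtain ⟨b, hb⟩ := h
        rw [hb, Finset.mem_singleton] at hG
        exact hne (by rw [hb, hG.2.1])
      simp only [map_zero, this, zero_mul]
    · intro h
      exfalso; apply h
      rw [mem_fil]
      refine ⟨(Finset.singleton_subset_iff.mpr ha).ssubset_of_ne ?_, by simp, ?_⟩
      · intro h; rw [← h, Finset.card_singleton] at hdeg'; omega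
      · intro F hF; simp at hF
  | @step P T m d hch hPT hd ih =>
    intro F0 a hTF ha hdeg
    have hsup := hch.supp
    have hTne : T.Nonempty := ssub_ne hPT
    have hsT : ∀ F ∈ m.support, F ⊂ T := fun F hF => (hsup F hF).1.trans_ssubset hPT
    have hmT : m T = 0 := by
      by_contra hc
      exact ssubset_irrefl _ (hsT T (Finsupp.mem_support_iff.mpr hc))
    have hsupp : ∀ F, F ∈ (m + Finsupp.single T d).support ↔ F ∈ m.support ∨ F = T := by
      intro F
      rw [Finsupp.mem_support_iff, Finsupp.mem_support_iff, Finsupp.add_apply]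
      rcases eq_or_ne F T with h1 | h1
      · subst h1; simp [hd]
      · rw [Finsupp.single_eq_of_ne h1]; simp [h1]
    have hdegD : (m + Finsupp.single T d).degree = m.degree + d := by
      rw [map_add, Finsupp.degree_single]
    set D := m.degree + d with hD
    rw [hdegD] at hdeg
    have hfN := Finset.card_lt_card hTF
    have hstrict : ∀ F ∈ (m + Finsupp.single T d).support, F ⊆ T := by
      intro F hF
      rcases (hsupp F).mp hF with h | h
      · exact (hsT F h).subset
      · rw [h]
    -- value on big sets
    have hA1 : ∀ G : Finset α, T ⊂ G → G ⊂ F0 → psiF F0 (m + Finsupp.single T d + Finsupp.single G 1) =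
        (if G.card = D + 1 then 1 else 0) * (cc (D + 1) T.card d D * psiF T m) := by
      intro G h1 h2
      rw [PEEL F0 G (m + Finsupp.single T d) 1 one_ne_zero (fun F hF => (hstrict F hF).trans_ssubset h1)
        (hTne.mono h1.subset) h2, hdegD, cc_one]
      split_ifs with h3
      · rw [PEEL G T m d hd hsT hTne h1, h3]
      · simp
    have hsumA1 : ∀ (S : Finset (Finset α)) , (∀ G ∈ S, T ⊂ G ∧ G ⊂ F0) →
        ∑ G ∈ S, psiF F0 (m + Finsupp.single T d + Finsupp.single G 1) =
        ((S.filter (fun G => G.card = D + 1)).card : ℤ) * (cc (D + 1) T.card d D * psiF T m) := by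
      intro S hS
      rw [Finset.sum_congr rfl (fun G hG => hA1 G (hS G hG).1 (hS G hG).2), ← Finset.sum_mul]
      congr 1
      rw [Finset.sum_ite]; simp
    rw [PEEL F0 T m d hd hsT hTne hTF, ← hD]
    by_cases haT : a ∈ T
    · have hset : fil (fun G : Finset α => G ⊂ F0 ∧ a ∈ G ∧ Cmp G (m + Finsupp.single T d)) =
          fil (fun G : Finset α => T ⊂ G ∧ G ⊂ F0) ∪ (insert T (fil (fun G : Finset α => G ⊂ T ∧ a ∈ G ∧ Cmp G m))) := by
        ext G
        simp only [Finset.mem_union, Finset.mem_insert, mem_fil]
        constructor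
        · rintro ⟨h1, h2, h3⟩
          rcases h3 T ((hsupp T).mpr (Or.inr rfl)) with h4 | h4
          · rcases eq_or_ne G T with h5 | h5
            · right; left; exact h5
            · left; exact ⟨h4.ssubset_of_ne h5.symm, h1⟩
          · rcases eq_or_ne G T with h5 | h5
            · right; left; exact h5
            · right; right
              exact ⟨h4.ssubset_of_ne h5, h2, fun F hF => h3 F ((hsupp F).mpr (Or.inl hF))⟩
        · rintro (⟨h1, h2⟩ | h1 | ⟨h1, h2, h3⟩)
          · exact ⟨h2, h1.subset haT, fun F hF => Or.inl ((hstrict F hF).trans h1.subset)⟩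
          · subst h1
            exact ⟨hTF, haT, fun F hF => Or.inl (hstrict F hF)⟩
          · refine ⟨h1.trans hTF, h2, fun F hF => ?_⟩
            rcases (hsupp F).mp hF with h | h
            · exact h3 F h
            · right; rw [h]; exact h1.subset
      rw [hset, Finset.sum_union, Finset.sum_insert]
      rotate_left
      · rw [mem_fil]; rintro ⟨h1, _⟩; exact ssubset_irrefl _ h1
      · rw [Finset.disjoint_left]
        intro G hG hG2
        rw [mem_fil] at hG
        rw [Finset.mem_insert, mem_fil] at hG2
        rcases hG2 with h | h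
        · exact ssubset_irrefl _ (h ▸ hG.1)
        · exact ssubset_irrefl _ (hG.1.trans h.1)
      rw [hsumA1 _ (fun G hG => mem_fil.mp hG)]
      have hcount : ((fil (fun G : Finset α => T ⊂ G ∧ G ⊂ F0)).filter (fun G => G.card = D + 1)).card =
          (if T.card < D + 1 then (F0.card - T.card).choose (D + 1 - T.card) else 0 : ℕ) := by
        split_ifs with h
        · rw [← card_between T F0 hTF.subset]
          congr 1
          ext G
          simp only [Finset.mem_filter, mem_fil]
          constructor
          · rintro ⟨⟨h1, h2⟩, h3⟩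
            exact ⟨h1.subset, h2.subset, by omega⟩
          · rintro ⟨h1, h2, h3⟩
            refine ⟨⟨h1.ssubset_of_ne ?_, h2.ssubset_of_ne ?_⟩, by omega⟩
            · rintro rfl; omega
            · rintro rfl; omega
        · rw [Finset.card_eq_zero, Finset.filter_eq_empty_iff]
          intro G hG hc
          rw [mem_fil] at hG
          have := Finset.card_lt_card hG.1
          omega
      rw [hcount]
      have h2 : psiF F0 (m + Finsupp.single T d + Finsupp.single T 1) = cc F0.card T.card (d + 1) (D + 1) * psiF T m := by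
        rw [add_assoc, ← Finsupp.single_add, PEEL F0 T m (d + 1) (by omega) hsT hTne hTF]
        congr 2
      have h3 : ∑ G ∈ fil (fun G : Finset α => G ⊂ T ∧ a ∈ G ∧ Cmp G m), psiF F0 (m + Finsupp.single T d + Finsupp.single G 1) =
          cc F0.card T.card d (D + 1) * psiF T m := by
        have h4 : ∀ G ∈ fil (fun G : Finset α => G ⊂ T ∧ a ∈ G ∧ Cmp G m), psiF F0 (m + Finsupp.single T d + Finsupp.single G 1) =
            cc F0.card T.card d (D + 1) * psiF T (m + Finsupp.single G 1) := by
          intro G hG
          rw [mem_fil] at hG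
          rw [add_right_comm, PEEL F0 T (m + Finsupp.single G 1) d hd ?_ hTne hTF, map_add, Finsupp.degree_single]
          · congr 2; omega
          · intro F hF
            have h5 := Finsupp.support_add hF
            rw [Finset.mem_union] at h5
            rcases h5 with h5 | h5
            · exact hsT F h5
            · have := Finsupp.support_single_subset h5
              rw [Finset.mem_singleton] at this
              rw [this]; exact hG.1
        rw [Finset.sum_congr rfl h4, ← Finset.mul_sum]
        by_cases h5 : m.degree + 2 ≤ T.card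
        · rw [ih T a hPT haT h5]
        · rw [cc_vanish _ _ _ _ (by omega) hd]; simp
      rw [h2, h3, ← num2 F0.card T.card d D hd hfN]
      ring
    · have hset : fil (fun G : Finset α => G ⊂ F0 ∧ a ∈ G ∧ Cmp G (m + Finsupp.single T d)) =
          fil (fun G : Finset α => insert a T ⊆ G ∧ G ⊂ F0) := by
        ext G
        simp only [mem_fil]
        constructor
        · rintro ⟨h1, h2, h3⟩
          rcases h3 T ((hsupp T).mpr (Or.inr rfl)) with h4 | h4
          · exact ⟨Finset.insert_subset h2 h4, h1⟩
          · exact absurd (h4 h2) haT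
        · rintro ⟨h1, h2⟩
          refine ⟨h2, h1 (Finset.mem_insert_self _ _), fun F hF => Or.inl ((hstrict F hF).trans ((Finset.subset_insert _ _).trans h1))⟩
      rw [hset, hsumA1]
      · have hcount : ((fil (fun G : Finset α => insert a T ⊆ G ∧ G ⊂ F0)).filter (fun G => G.card = D + 1)).card =
            (if T.card ≤ D then (F0.card - T.card - 1).choose (D - T.card) else 0 : ℕ) := by
          have hci : (insert a T).card = T.card + 1 := Finset.card_insert_of_notMem haT
          split_ifs with h
          · have h6 : F0.card - T.card - 1 = F0.card - (insert a T).card := by rw [hci]; omega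
            rw [h6, ← card_between (insert a T) F0 (Finset.insert_subset ha hTF.subset)]
            congr 1
            ext G
            simp only [Finset.mem_filter, mem_fil, hci]
            constructor
            · rintro ⟨⟨h1, h2⟩, h3⟩
              exact ⟨h1, h2.subset, by omega⟩
            · rintro ⟨h1, h2, h3⟩
              refine ⟨⟨h1, h2.ssubset_of_ne ?_⟩, by omega⟩
              rintro rfl; omega
          · rw [Finset.card_eq_zero, Finset.filter_eq_empty_iff]
            intro G hG hc
            rw [mem_fil] at hG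
            have := Finset.card_le_card hG.1
            omega
        rw [hcount, ← num1 F0.card T.card d D]
        ring
      · intro G hG
        rw [mem_fil] at hG
        exact ⟨(Finset.ssubset_insert haT).trans_subset hG.1, hG.2⟩

end

end Pool.Agent.H323FY
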