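import Mathlib
import Pool.Agent.H323FY.Rel
import Pool.Agent.H323FY.Defs

set_option autoImplicit false
set_option linter.unusedSectionVars false

namespace Pool.Agent.H323FY

open Finset

section
variable {α : Type} [Fintype α] [DecidableEq α]

/-- chains of nonempty proper subsets. -/
def IsCh (m : Finset α →₀ ℕ) : Prop :=
  (∀ F ∈ m.support, ∀ G ∈ m.support, F ⊆ G ∨ G ⊆ F) ∧ ∀ F ∈ m.support, F.Nonempty ∧ F ≠ univ

lemma IsCh_add (m : Finset α →₀ ℕ) (G : Finset α) :
    IsCh (m + Finsupp.single G 1) ↔ IsCh m ∧ Cmp G m ∧ G.Nonempty ∧ G ≠ univ := by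
  have hsupp : ∀ F, F ∈ (m + Finsupp.single G 1).support ↔ F ∈ m.support ∨ F = G := by
    intro F
    rw [Finsupp.mem_support_iff, Finsupp.mem_support_iff, Finsupp.add_apply]
    rcases eq_or_ne F G with h1 | h1
    · subst h1; simp
    · rw [Finsupp.single_eq_of_ne h1]; simp [h1]
  unfold IsCh Cmp
  simp only [hsupp]
  constructor
  · rintro ⟨h1, h2⟩
    exact ⟨⟨fun F hF G' hG => h1 F (Or.inl hF) G' (Or.inl hG), fun F hF => h2 F (Or.inl hF)⟩,
      fun F hF => h1 F (Or.inl hF) G (Or.inr rfl), h2 G (Or.inr rfl)⟩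
  · rintro ⟨⟨h1, h2⟩, h3, h4⟩
    refine ⟨?_, ?_⟩
    · rintro F (hF | rfl) G' (hG | rfl)
      · exact h1 F hF G' hG
      · exact h3 F hF
      · exact (h3 G' hG).symm
      · left; exact subset_rfl
    · rintro F (hF | rfl)
      · exact h2 F hF
      · exact h4

lemma IsCh.exists_Ch (m : Finset α →₀ ℕ) (h : IsCh m) : ∃ T, Ch T m ∧ (T = ∅ ∨ T ∈ m.support) := by
  induction hn : m.support.card using Nat.strong_induction_on generalizing m with
  | _ n ih =>
    rcases m.support.eq_empty_or_nonempty with h0 | h0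
    · rw [Finsupp.support_eq_empty] at h0
      subst h0
      exact ⟨∅, Ch.zero, Or.inl rfl⟩
    · obtain ⟨T, hT, hmax⟩ := exists_top m.support h0 (fun F hF G hG _ => h.1 F hF G hG)
      have hsplit : m = m.erase T + Finsupp.single T (m T) := by
        rw [add_comm]; exact (Finsupp.single_add_erase T m).symm
      have hch : IsCh (m.erase T) := by
        refine ⟨fun F hF G hG => h.1 F ?_ G ?_, fun F hF => h.2 F ?_⟩
        all_goals
          rw [Finsupp.support_erase] at *
          exact Finset.mem_of_mem_erase (by assumption)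
      have hcard : (m.erase T).support.card < n := by
        rw [Finsupp.support_erase, ← hn]
        exact Finset.card_erase_lt_of_mem hT
      obtain ⟨P, hP, hP2⟩ := ih _ hcard _ hch rfl
      refine ⟨T, ?_, Or.inr hT⟩
      rw [hsplit]
      refine Ch.step hP ?_ (Finsupp.mem_support_iff.mp hT)
      rcases hP2 with h1 | h1
      · rw [h1]; exact (h.2 T hT).1.empty_ssubset
      · rw [Finsupp.support_erase, Finset.mem_erase] at h1
        exact (hmax P h1.2).ssubset_of_ne h1.1

lemma W_le (m : Finset α →₀ ℕ) (s : ℕ) : W (lev m) s ≤ m.degree := by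
  unfold W lev Finsupp.sum
  rw [Finset.sum_comm, Finsupp.degree_apply]
  apply Finset.sum_le_sum
  intro F hF
  rw [Finset.sum_ite_eq]
  split_ifs <;> omega

open scoped Classical in
/-- value of the functional of degree `D`. -/
noncomputable def vv (D : ℕ) (m : Finset α →₀ ℕ) : ℚ :=
  if m.degree = D ∧ IsCh m then (psiF univ m : ℚ) else 0

lemma lev_pos_of_mem (m : Finset α →₀ ℕ) (G : Finset α) (h : G ∈ m.support) : lev m G.card ≠ 0 := by
  unfold lev Finsupp.sum
  intro h0
  rw [Finset.sum_eq_zero_iff] at h0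
  have := h0 G h
  dsimp only at this
  rw [if_pos rfl] at this
  exact Finsupp.mem_support_iff.mp h this

lemma psiF_big (m : Finset α →₀ ℕ) (G : Finset α) (hG : G ≠ univ) (hG2 : G.Nonempty) (h : G ∈ m.support)
    (hd : m.degree < G.card) : psiF univ m = 0 := by
  by_contra hc
  unfold psiF at hc
  have hlt : G.card < (univ : Finset α).card := Finset.card_lt_card (Finset.ssubset_univ_iff.mpr hG)
  have := psi_ne _ _ _ hc G.card (Finset.card_pos.mpr hG2) (by omega) (lev_pos_of_mem m G h)
  have := W_le m G.card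
  omega

lemma rel' (r D : ℕ) (hr : D + 2 ≤ r) (hrn : r ≤ Fintype.card α) (m : Finset α →₀ ℕ) (a : α) :
    ∑ G ∈ fil (fun G : Finset α => (G.Nonempty ∧ G.card < r) ∧ a ∈ G), vv (D + 1) (m + Finsupp.single G 1) = vv D m := by
  classical
  unfold vv
  by_cases h : m.degree = D ∧ IsCh m
  · rw [if_pos h]
    obtain ⟨hdeg, hch⟩ := h
    obtain ⟨T, hT, hT2⟩ := hch.exists_Ch
    have huniv : (univ : Finset α).card = Fintype.card α := Finset.card_univ
    have hTu : T ⊂ univ := by
      rw [Finset.ssubset_univ_iff]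
      rcases hT2 with h1 | h1
      · rw [h1]; intro h2
        have := congrArg Finset.card h2
        rw [huniv, Finset.card_empty] at this; omega
      · exact (hch.2 T h1).2
    have hrel := rel hT univ a hTu (Finset.mem_univ a) (by rw [hdeg, huniv]; omega)
    rw [← hrel]
    push_cast
    have hsub : fil (fun G : Finset α => ((G.Nonempty ∧ G.card < r) ∧ a ∈ G) ∧ Cmp G m) ⊆
        fil (fun G : Finset α => G ⊂ univ ∧ a ∈ G ∧ Cmp G m) := by
      intro G hG
      rw [mem_fil] at hG ⊢
      refine ⟨?_, hG.1.2, hG.2⟩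
      rw [Finset.ssubset_univ_iff]
      rintro rfl
      have := hG.1.1.2
      omega
    rw [← Finset.sum_subset hsub]
    · have hsub2 : fil (fun G : Finset α => ((G.Nonempty ∧ G.card < r) ∧ a ∈ G) ∧ Cmp G m) ⊆
          fil (fun G : Finset α => (G.Nonempty ∧ G.card < r) ∧ a ∈ G) := by
        intro G hG
        rw [mem_fil] at hG ⊢
        exact hG.1
      rw [← Finset.sum_subset hsub2]
      · apply Finset.sum_congr rfl
        intro G hG
        rw [mem_fil] at hG
        rw [if_pos]
        refine ⟨by rw [map_add, Finsupp.degree_single, hdeg], (IsCh_add m G).mpr ⟨hch, hG.2, hG.1.1.1, ?_⟩⟩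
        rintro rfl
        have := hG.1.1.2
        omega
      · intro G hG hG2
        rw [mem_fil] at hG hG2
        rw [if_neg]
        rintro ⟨_, h2⟩
        exact hG2 ⟨hG, ((IsCh_add m G).mp h2).2.1⟩
    · intro G hG hG2
      rw [mem_fil] at hG hG2
      have hGr : r ≤ G.card := by
        by_contra hc
        exact hG2 ⟨⟨⟨⟨a, hG.2.1⟩, by omega⟩, hG.2.1⟩, hG.2.2⟩
      rw [psiF_big _ G (Finset.ssubset_univ_iff.mp hG.1) ⟨a, hG.2.1⟩]
      · simp
      · rw [Finsupp.mem_support_iff, Finsupp.add_apply, Finsupp.single_eq_same]; omega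
      · rw [map_add, Finsupp.degree_single, hdeg]; omega
  · rw [if_neg h]
    apply Finset.sum_eq_zero
    intro G hG
    rw [if_neg]
    rintro ⟨h1, h2⟩
    apply h
    rw [map_add, Finsupp.degree_single] at h1
    exact ⟨by omega, ((IsCh_add m G).mp h2).1⟩

/-- the functional of degree `D` on the polynomial ring in all subsets. -/
noncomputable def Lam (D : ℕ) : MvPolynomial (Finset α) ℚ →ₗ[ℚ] ℚ :=
  (MvPolynomial.basisMonomials (Finset α) ℚ).constr ℚ (vv D)

lemma Lam_monomial (D : ℕ) (m : Finset α →₀ ℕ) : Lam D (MvPolynomial.monomial m (1 : ℚ)) = vv D m := by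
  unfold Lam
  have := (MvPolynomial.basisMonomials (Finset α) ℚ).constr_basis ℚ (vv D) m
  rw [MvPolynomial.coe_basisMonomials] at this
  exact this

lemma lin_ext (f g : MvPolynomial (Finset α) ℚ →ₗ[ℚ] ℚ)
    (h : ∀ m, f (MvPolynomial.monomial m 1) = g (MvPolynomial.monomial m 1)) : f = g := by
  apply (MvPolynomial.basisMonomials (Finset α) ℚ).ext
  intro m
  rw [MvPolynomial.coe_basisMonomials]
  exact h m

/-- the class `∑_{F ∋ a} x_F` over nonempty sets of size `< r`. -/
noncomputable def alp (r : ℕ) (a : α) : MvPolynomial (Finset α) ℚ :=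
  ∑ G ∈ fil (fun G : Finset α => (G.Nonempty ∧ G.card < r) ∧ a ∈ G), MvPolynomial.X G

lemma Lam_alp (r D : ℕ) (hr : D + 2 ≤ r) (hrn : r ≤ Fintype.card α) (a : α) (p : MvPolynomial (Finset α) ℚ) :
    Lam (D + 1) (p * alp r a) = Lam D p := by
  have : (Lam (D + 1)).comp (LinearMap.mulRight ℚ (alp (α := α) r a)) = Lam D := by
    apply lin_ext
    intro m
    rw [LinearMap.comp_apply, LinearMap.mulRight_apply, alp, Finset.mul_sum, map_sum, Lam_monomial,
      ← rel' r D hr hrn m a]
    apply Finset.sum_congr rfl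
    intro G _
    rw [MvPolynomial.X, MvPolynomial.monomial_mul, one_mul, Lam_monomial]
  exact congrArg (fun f : MvPolynomial (Finset α) ℚ →ₗ[ℚ] ℚ => f p) this

lemma Lam_alp_pow (r : ℕ) (hrn : r ≤ Fintype.card α) (a : α) (c : ℕ) : ∀ (D : ℕ) (_ : D + c + 1 ≤ r) (p : MvPolynomial (Finset α) ℚ),
    Lam (D + c) (p * alp r a ^ c) = Lam D p := by
  induction c with
  | zero => intro D _ p; simp
  | succ c ih =>
    intro D hD p
    rw [pow_succ, ← mul_assoc, ← add_assoc, Lam_alp r (D + c) (by omega) hrn a, ih D (by omega)]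

lemma Lam_incomp (D : ℕ) (F G : Finset α) (h1 : ¬ F ⊆ G) (h2 : ¬ G ⊆ F) (p : MvPolynomial (Finset α) ℚ) :
    Lam D (p * (MvPolynomial.X F * MvPolynomial.X G)) = 0 := by
  classical
  have : (Lam D).comp (LinearMap.mulRight ℚ (MvPolynomial.X F * MvPolynomial.X G : MvPolynomial (Finset α) ℚ)) = 0 := by
    apply lin_ext
    intro m
    rw [LinearMap.comp_apply, LinearMap.mulRight_apply, LinearMap.zero_apply, MvPolynomial.X, MvPolynomial.X,
      MvPolynomial.monomial_mul, MvPolynomial.monomial_mul, one_mul, one_mul, Lam_monomial, vv, if_neg]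
    rintro ⟨_, h⟩
    have hF : F ∈ (m + (Finsupp.single F 1 + Finsupp.single G 1)).support := by
      rw [Finsupp.mem_support_iff, Finsupp.add_apply, Finsupp.add_apply, Finsupp.single_eq_same]; omega
    have hG : G ∈ (m + (Finsupp.single F 1 + Finsupp.single G 1)).support := by
      rw [Finsupp.mem_support_iff, Finsupp.add_apply, Finsupp.add_apply, Finsupp.single_eq_same]; omega
    rcases h.1 F hF G hG with h3 | h3
    · exact h1 h3
    · exact h2 h3
  exact congrArg (fun f : MvPolynomial (Finset α) ℚ →ₗ[ℚ] ℚ => f p) this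

lemma Lam_J (r : ℕ) (hrn : r ≤ Fintype.card α) (a b : α) (p : MvPolynomial (Finset α) ℚ) :
    Lam (r - 1) (p * (alp r a - alp r b)) = 0 := by
  rcases Nat.lt_or_ge r 2 with h | h
  · have : ∀ c : α, alp r c = 0 := by
      intro c
      unfold alp
      apply Finset.sum_eq_zero
      intro G hG
      rw [mem_fil] at hG
      have := Finset.card_pos.mpr hG.1.1
      omega
    rw [this, this]; simp
  · obtain ⟨D, rfl⟩ : ∃ D, r = D + 2 := ⟨r - 2, by omega⟩
    have : D + 2 - 1 = D + 1 := by omega
    rw [this, mul_sub, map_sub, Lam_alp (D + 2) D le_rfl hrn, Lam_alp (D + 2) D le_rfl hrn, sub_self]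

end

end Pool.Agent.H323FY
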