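import Mathlib
import Pool.Agent.H323FY.Func

set_option autoImplicit false
set_option linter.unusedSectionVars false

namespace Pool.Agent.H323FY

open Finset

section
variable {α : Type} [Fintype α] [DecidableEq α]

/-- Feichtner-Yuzvinsky exponents with top set `T` (first argument) and their duals. -/
inductive FY : Finset α → (Finset α →₀ ℕ) → (Finset α →₀ ℕ) → Prop
  | zero : FY ∅ 0 0
  | step {P T : Finset α} {m m' : Finset α →₀ ℕ} {a : ℕ} : FY P m m' → P ⊂ T → 0 < a → a + P.card < T.card →
      FY T (m + Finsupp.single T a) (m' + Finsupp.single T (T.card - P.card - a))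

lemma FY.ch {T : Finset α} {m m' : Finset α →₀ ℕ} (h : FY T m m') : Ch T m := by
  induction h with
  | zero => exact Ch.zero
  | step h1 h2 h3 h4 ih => exact Ch.step ih h2 (by omega)

lemma FY.ch' {T : Finset α} {m m' : Finset α →₀ ℕ} (h : FY T m m') : Ch T m' := by
  induction h with
  | zero => exact Ch.zero
  | step h1 h2 h3 h4 ih => exact Ch.step ih h2 (by omega)

lemma supp_add_single (m : Finset α →₀ ℕ) (T : Finset α) (a : ℕ) (ha : a ≠ 0) (F : Finset α) :
    F ∈ (m + Finsupp.single T a).support ↔ F ∈ m.support ∨ F = T := by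
  rw [Finsupp.mem_support_iff, Finsupp.mem_support_iff, Finsupp.add_apply]
  rcases eq_or_ne F T with h1 | h1
  · subst h1; simp [ha]
  · rw [Finsupp.single_eq_of_ne h1]; simp [h1]

lemma FY.supp_iff {T : Finset α} {m m' : Finset α →₀ ℕ} (h : FY T m m') (F : Finset α) :
    F ∈ m'.support ↔ F ∈ m.support := by
  induction h with
  | zero => rfl
  | step h1 h2 h3 h4 ih =>
    rw [supp_add_single _ _ _ (by omega), supp_add_single _ _ _ (by omega), ih]

lemma FY.deg {T : Finset α} {m m' : Finset α →₀ ℕ} (h : FY T m m') : m.degree + m'.degree = T.card := by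
  induction h with
  | zero => simp
  | step h1 h2 h3 h4 ih =>
    rw [map_add, map_add, Finsupp.degree_single, Finsupp.degree_single]; omega

lemma lev_ne (m : Finset α →₀ ℕ) (s : ℕ) : lev m s ≠ 0 ↔ ∃ F ∈ m.support, F.card = s := by
  constructor
  · intro h
    by_contra hc
    push Not at hc
    exact h (lev_eq_zero m s hc)
  · rintro ⟨F, hF, rfl⟩
    exact lev_pos_of_mem m F hF

lemma W_lev_add (m m' : Finset α →₀ ℕ) (s : ℕ) : W (lev (m + m')) s = W (lev m) s + W (lev m') s := by
  rw [← W_add]
  congr 1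
  funext u
  exact lev_add m m' u

lemma W_lev_single_lt (T : Finset α) (a s : ℕ) (h : s < T.card) : W (lev (Finsupp.single T a)) s = 0 := by
  unfold W
  apply Finset.sum_eq_zero
  intro u hu
  rw [Finset.mem_range] at hu
  rw [lev_single, if_neg (by omega)]

lemma FY.levW {T : Finset α} {m m' : Finset α →₀ ℕ} (h : FY T m m') :
    ∀ s, lev m s ≠ 0 → W (lev m) s + W (lev m') s = s := by
  induction h with
  | zero => intro s hs; rw [lev_zero] at hs; exact absurd rfl hs
  | @step P T m m' a h1 h2 h3 h4 ih =>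
    intro s hs
    have hfull := FY.step h1 h2 h3 h4
    rw [lev_ne] at hs
    obtain ⟨F, hF, rfl⟩ := hs
    rw [supp_add_single _ _ _ (by omega)] at hF
    rcases hF with hF | hF
    · have hFP := (h1.ch.supp F hF).1
      have hlt : F.card < T.card := (Finset.card_le_card hFP).trans_lt (Finset.card_lt_card h2)
      rw [W_lev_add, W_lev_add, W_lev_single_lt _ _ _ hlt, W_lev_single_lt _ _ _ hlt]
      have := ih F.card (lev_pos_of_mem m F hF)
      omega
    · subst hF
      rw [W_lev, W_lev]
      · exact hfull.deg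
      · intro G hG; exact Finset.card_le_card (hfull.ch'.supp G hG).1
      · intro G hG; exact Finset.card_le_card (hfull.ch.supp G hG).1

lemma inv_add {T T₂ : Finset α} {m m₂ : Finset α →₀ ℕ} {a a₂ : ℕ} (hm : ∀ F ∈ m.support, F ⊂ T)
    (hm₂ : ∀ F ∈ m₂.support, F ⊂ T₂) (ha : a ≠ 0) (ha₂ : a₂ ≠ 0)
    (h : m + Finsupp.single T a = m₂ + Finsupp.single T₂ a₂) : T = T₂ ∧ a = a₂ ∧ m = m₂ := by
  have h1 : T ∈ (m₂ + Finsupp.single T₂ a₂).support := by
    rw [← h, supp_add_single _ _ _ ha]; right; rfl
  have h2 : T₂ ∈ (m + Finsupp.single T a).support := by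
    rw [h, supp_add_single _ _ _ ha₂]; right; rfl
  rw [supp_add_single _ _ _ ha₂] at h1
  rw [supp_add_single _ _ _ ha] at h2
  have hT : T = T₂ := by
    rcases h1 with h1 | h1
    · rcases h2 with h2 | h2
      · exact absurd ((hm₂ T h1).trans (hm T₂ h2)) (ssubset_irrefl _)
      · exact h2.symm
    · exact h1
  subst hT
  have h3 : m T = 0 := by
    by_contra hc; exact ssubset_irrefl _ (hm T (Finsupp.mem_support_iff.mpr hc))
  have h4 : m₂ T = 0 := by
    by_contra hc; exact ssubset_irrefl _ (hm₂ T (Finsupp.mem_support_iff.mpr hc))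
  have h5 := DFunLike.congr_fun h T
  rw [Finsupp.add_apply, Finsupp.add_apply, h3, h4, Finsupp.single_eq_same, Finsupp.single_eq_same] at h5
  have h6 : a = a₂ := by omega
  subst h6
  exact ⟨rfl, rfl, add_right_cancel h⟩

lemma FY.ssup {P T : Finset α} {m m' : Finset α →₀ ℕ} (h : FY P m m') (hPT : P ⊂ T) : ∀ F ∈ m.support, F ⊂ T :=
  fun F hF => (h.ch.supp F hF).1.trans_ssubset hPT

lemma FY.unique {P : Finset α} {m m1 : Finset α →₀ ℕ} (h : FY P m m1) :
    ∀ {P' : Finset α} {m2 : Finset α →₀ ℕ}, FY P' m m2 → P = P' ∧ m1 = m2 := by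
  induction h with
  | zero =>
    intro P' m2 h'
    generalize hz : (0 : Finset α →₀ ℕ) = z at h'
    cases h' with
    | zero => exact ⟨rfl, rfl⟩
    | @step P _ m m' a h1 h2 h3 h4 =>
      exfalso
      have := DFunLike.congr_fun hz P'
      rw [Finsupp.add_apply, Finsupp.single_eq_same, Finsupp.zero_apply] at this
      omega
  | @step P T m m' a h1 h2 h3 h4 ih =>
    intro P' m2 h'
    generalize hz : m + Finsupp.single T a = z at h'
    cases h' with
    | zero =>
      exfalso
      have := DFunLike.congr_fun hz T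
      rw [Finsupp.add_apply, Finsupp.single_eq_same, Finsupp.zero_apply] at this
      omega
    | @step P₂ _ m₂ m₂' a₂ h1' h2' h3' h4' =>
      obtain ⟨e1, e2, e3⟩ := inv_add (h1.ssup h2) (h1'.ssup h2') (by omega) (by omega) hz
      subst e1 e2 e3
      obtain ⟨e4, e5⟩ := ih h1'
      subst e4 e5
      exact ⟨rfl, rfl⟩

/-- finite set of FY pairs (with fuel). -/
noncomputable def fyS : ℕ → Finset α → Finset ((Finset α →₀ ℕ) × (Finset α →₀ ℕ))
  | 0, T => if T = ∅ then {(0, 0)} else ∅
  | k + 1, T => if T = ∅ then {(0, 0)} else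
      ((fil (fun P : Finset α => P ⊂ T)).sigma fun P => (Finset.Ioo 0 (T.card - P.card)) ×ˢ fyS k P).image
        (fun x => (x.2.2.1 + Finsupp.single T x.2.1, x.2.2.2 + Finsupp.single T (T.card - x.1.card - x.2.1)))

lemma mem_fyS : ∀ (k : ℕ) (T : Finset α) (_ : T.card ≤ k) (p : (Finset α →₀ ℕ) × (Finset α →₀ ℕ)),
    p ∈ fyS k T ↔ FY T p.1 p.2 := by
  have hempty : ∀ p : (Finset α →₀ ℕ) × (Finset α →₀ ℕ), p ∈ ({(0, 0)} : Finset _) ↔ FY (∅ : Finset α) p.1 p.2 := by
    intro p
    rw [Finset.mem_singleton]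
    constructor
    · rintro rfl; exact FY.zero
    · intro h
      obtain ⟨p1, p2⟩ := p
      dsimp only at h
      cases h with
      | zero => rfl
      | step h1 h2 h3 h4 => exact absurd h2 (Finset.not_ssubset_empty _)
  intro k
  induction k with
  | zero =>
    intro T hT p
    have : T = ∅ := by rw [← Finset.card_eq_zero]; omega
    subst this
    rw [fyS, if_pos rfl]; exact hempty p
  | succ k ih =>
    intro T hT p
    rw [fyS]
    by_cases h0 : T = ∅
    · subst h0; rw [if_pos rfl]; exact hempty p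
    · rw [if_neg h0, Finset.mem_image]
      constructor
      · rintro ⟨⟨P, a, q⟩, hx, rfl⟩
        rw [Finset.mem_sigma, mem_fil, Finset.mem_product, Finset.mem_Ioo] at hx
        obtain ⟨h1, h2, h3⟩ := hx
        dsimp only at h1 h2 h3 ⊢
        have hlt := Finset.card_lt_card h1
        rw [ih P (by omega)] at h3
        exact FY.step h3 h1 h2.1 (by omega)
      · intro h
        obtain ⟨p1, p2⟩ := p
        dsimp only at h
        cases h with
        | zero => exact absurd rfl h0
        | @step P _ m m' a h1 h2 h3 h4 =>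
          have hlt := Finset.card_lt_card h2
          refine ⟨⟨P, a, (m, m')⟩, ?_, rfl⟩
          rw [Finset.mem_sigma, mem_fil, Finset.mem_product, Finset.mem_Ioo]
          refine ⟨h2, ⟨h3, by dsimp only; omega⟩, ?_⟩
          rw [ih P (by omega)]; exact h1

open Polynomial in
lemma sum_Ioo_q (m : ℕ) (hm : 0 < m) : ∑ a ∈ Finset.Ioo 0 m, (X : ℤ[X]) ^ a = q m - 1 := by
  obtain ⟨c, rfl⟩ : ∃ c, m = c + 1 := ⟨m - 1, by omega⟩
  unfold q
  rw [Finset.sum_range_succ' (fun i => (X : ℤ[X]) ^ i), pow_zero, add_sub_cancel_right]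
  symm
  apply Finset.sum_nbij' (fun i => i + 1) (fun i => i - 1)
  · intro i hi; simp at hi ⊢; omega
  · intro i hi; simp at hi ⊢; omega
  · intro i hi; simp
  · intro i hi; simp at hi ⊢; omega
  · intro i hi; rfl

open Polynomial in
lemma sum_fyS : ∀ (k : ℕ) (T : Finset α) (_ : T.card ≤ k),
    ∑ p ∈ fyS k T, (X : ℤ[X]) ^ p.1.degree = dp T.card := by
  intro k
  induction k with
  | zero =>
    intro T hT
    have : T = ∅ := by rw [← Finset.card_eq_zero]; omega
    subst this
    rw [fyS, if_pos rfl]; simp [dp_zero]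
  | succ k ih =>
    intro T hT
    rw [fyS]
    by_cases h0 : T = ∅
    · subst h0; rw [if_pos rfl]; simp [dp_zero]
    · have hpos : 0 < T.card := Finset.card_pos.mpr (Finset.nonempty_iff_ne_empty.mpr h0)
      rw [if_neg h0, Finset.sum_image]
      · rw [Finset.sum_sigma]
        have : ∀ P ∈ fil (fun P : Finset α => P ⊂ T),
            ∑ x ∈ (Finset.Ioo 0 (T.card - P.card)) ×ˢ fyS k P, (X : ℤ[X]) ^ (x.2.1 + Finsupp.single T x.1).degree =
            dp P.card * (q (T.card - P.card) - 1) := by
          intro P hP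
          rw [mem_fil] at hP
          have hlt := Finset.card_lt_card hP
          rw [Finset.sum_product, ← sum_Ioo_q _ (by omega), ← ih P (by omega), Finset.sum_mul_sum, Finset.sum_comm]
          apply Finset.sum_congr rfl
          intro p _
          apply Finset.sum_congr rfl
          intro a _
          rw [map_add, Finsupp.degree_single, pow_add]
        rw [Finset.sum_congr rfl this, sum_ssubsets T (fun s => dp s * (q (T.card - s) - 1)), dp_pos hpos]
        apply Finset.sum_congr rfl
        intro s _; ring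
      · rintro ⟨P, a, q⟩ hx ⟨P', a', q'⟩ hx' heq
        rw [Finset.mem_coe, Finset.mem_sigma, mem_fil, Finset.mem_product, Finset.mem_Ioo] at hx hx'
        obtain ⟨h1, h2, h3⟩ := hx
        obtain ⟨h1', h2', h3'⟩ := hx'
        dsimp only at h1 h2 h3 h1' h2' h3' heq
        have hlt := Finset.card_lt_card h1
        have hlt' := Finset.card_lt_card h1'
        rw [mem_fyS k P (by omega)] at h3
        rw [mem_fyS k P' (by omega)] at h3'
        rw [Prod.mk.injEq] at heq
        obtain ⟨_, e2, e3⟩ := inv_add (h3.ssup h1) (h3'.ssup h1') (by omega) (by omega) heq.1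
        subst e2
        obtain ⟨q1, q2⟩ := q
        obtain ⟨q1', q2'⟩ := q'
        dsimp only at e3 h3 h3'
        subst e3
        obtain ⟨e4, e5⟩ := h3.unique h3'
        subst e4 e5
        rfl

lemma lev_self (m : Finset α →₀ ℕ) (F : Finset α) (h : ∀ G ∈ m.support, F ⊆ G ∨ G ⊆ F) : lev m F.card = m F := by
  unfold lev Finsupp.sum
  have : ∀ G ∈ m.support, (fun F_1 a => if F_1.card = F.card then a else 0) G (m G) = if G = F then m F else 0 := by
    intro G hG
    dsimp only
    by_cases h1 : G = F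
    · subst h1; simp
    · rw [if_neg h1, if_neg]
      intro h2
      rcases h G hG with h3 | h3
      · exact h1 (Finset.eq_of_subset_of_card_le h3 h2.le).symm
      · exact h1 (Finset.eq_of_subset_of_card_le h3 h2.ge)
  rw [Finset.sum_congr rfl this, Finset.sum_ite_eq']
  split_ifs with h1
  · rfl
  · exact (Finsupp.notMem_support_iff.mp h1).symm

lemma FY.nonvanish {T : Finset α} {m m' : Finset α →₀ ℕ} (h : FY T m m') : psiF univ (m + m') ≠ 0 := by
  unfold psiF
  apply psi_nonvanish
  intro u _ _ h3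
  rw [W_lev_add]
  apply h.levW
  rw [lev_ne] at h3 ⊢
  obtain ⟨F, hF, hFu⟩ := h3
  have := Finsupp.support_add hF
  rw [Finset.mem_union, h.supp_iff F] at this
  exact ⟨F, this.elim id id, hFu⟩

lemma FY.tri {T : Finset α} {m m' m₁ : Finset α →₀ ℕ} (h : FY T m m') (hT : T ≠ univ) (hch : IsCh (m₁ + m'))
    (hne : psiF univ (m₁ + m') ≠ 0) (hlex : toLex (lev m₁) ≤ toLex (lev m)) : m₁ = m := by
  have key : ∀ s, lev m s ≠ 0 → W (lev m) s ≤ W (lev m₁) s := by
    intro s hs
    have h1 := h.levW s hs
    rw [lev_ne] at hs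
    obtain ⟨F, hF, rfl⟩ := hs
    have hFT := h.ch.supp F hF
    have hFu : F ≠ univ := by
      rintro rfl
      exact hT (Finset.eq_univ_of_forall fun x => hFT.1 (Finset.mem_univ x))
    have hlt : F.card < (univ : Finset α).card := Finset.card_lt_card (Finset.ssubset_univ_iff.mpr hFu)
    have hmem : F ∈ (m₁ + m').support := by
      have := (h.supp_iff F).mpr hF
      rw [Finsupp.mem_support_iff] at this ⊢
      rw [Finsupp.add_apply]; omega
    have h2 := psi_ne _ _ _ hne F.card (Finset.card_pos.mpr hFT.2) (by omega) (lev_pos_of_mem _ F hmem)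
    rw [W_lev_add] at h2
    omega
  have hlev : lev m₁ = lev m := by
    rcases hlex.eq_or_lt with h1 | h1
    · exact toLex.injective h1
    · exfalso
      obtain ⟨i, hi1, hi2⟩ := h1
      dsimp only at hi1 hi2
      have hi2' : lev m₁ i < lev m i := hi2
      have h3 := key i (by omega)
      unfold W at h3
      rw [Finset.sum_range_succ, Finset.sum_range_succ] at h3
      have h4 : ∑ x ∈ range i, lev m₁ x = ∑ x ∈ range i, lev m x := by
        apply Finset.sum_congr rfl
        intro j hj
        exact hi1 j (Finset.mem_range.mp hj)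
      omega
  ext F
  have hs1 : ∀ G ∈ m₁.support, G ∈ (m₁ + m').support := by
    intro G hG
    rw [Finsupp.mem_support_iff] at hG ⊢
    rw [Finsupp.add_apply]; omega
  have hs2 : ∀ G ∈ m.support, G ∈ (m₁ + m').support := by
    intro G hG
    rw [← h.supp_iff] at hG
    rw [Finsupp.mem_support_iff] at hG ⊢
    rw [Finsupp.add_apply]; omega
  by_cases hF : F ∈ m₁.support ∨ F ∈ m.support
  · have hF2 : F ∈ (m₁ + m').support := hF.elim (hs1 F) (hs2 F)
    rw [← lev_self m₁ F (fun G hG => hch.1 F hF2 G (hs1 G hG)), ← lev_self m F (fun G hG => hch.1 F hF2 G (hs2 G hG)), hlev]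
  · push Not at hF
    rw [Finsupp.notMem_support_iff.mp hF.1, Finsupp.notMem_support_iff.mp hF.2]

end

end Pool.Agent.H323FY
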