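import Mathlib
import Pool.Agent.H323FY.Idx

set_option autoImplicit false
set_option linter.unusedSectionVars false

namespace Pool.Agent.H323FY

open Finset MvPolynomial

section
variable {n : ℕ}

/-- the variable attached to a set. -/
noncomputable def xx (r : ℕ) (F : Finset (Fin n)) : MvPolynomial (PFlats n r) ℚ :=
  if h : IsFlat n r F ∧ F ≠ ∅ ∧ F ≠ univ then X ⟨F, h⟩ else 0

/-- monomials. -/
noncomputable def mon (r : ℕ) (m : Finset (Fin n) →₀ ℕ) : MvPolynomial (PFlats n r) ℚ :=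
  m.prod (fun F e => xx r F ^ e)

lemma isP_iff {r : ℕ} (hrn : r ≤ n) (F : Finset (Fin n)) :
    (IsFlat n r F ∧ F ≠ ∅ ∧ F ≠ univ) ↔ (F.Nonempty ∧ F.card < r) := by
  unfold IsFlat
  constructor
  · rintro ⟨h1, h2, h3⟩
    exact ⟨Finset.nonempty_iff_ne_empty.mpr h2, h1.resolve_right h3⟩
  · rintro ⟨h1, h2⟩
    refine ⟨Or.inl h2, Finset.nonempty_iff_ne_empty.mp h1, ?_⟩
    rintro rfl
    rw [Finset.card_univ, Fintype.card_fin] at h2
    omega

/-- `α = ∑_{F ∋ a} x_F`. -/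
noncomputable def al (r : ℕ) (a : Fin n) : MvPolynomial (PFlats n r) ℚ := ∑ F : PFlats n r with a ∈ F.1, X F

/-- forget that the variables are flats. -/
noncomputable def rho (n r : ℕ) : MvPolynomial (PFlats n r) ℚ →ₐ[ℚ] MvPolynomial (Finset (Fin n)) ℚ :=
  rename Subtype.val

lemma rho_al {r : ℕ} (hrn : r ≤ n) (a : Fin n) : rho n r (al r a) = alp r a := by
  unfold al alp rho
  rw [map_sum]
  apply Finset.sum_nbij (fun F => F.1)
  · intro F hF
    rw [Finset.mem_filter] at hF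
    rw [mem_fil]
    exact ⟨(isP_iff hrn F.1).mp F.2, hF.2⟩
  · intro F _ G _ h
    exact Subtype.ext h
  · intro G hG
    rw [Finset.mem_coe, mem_fil] at hG
    refine ⟨⟨G, (isP_iff hrn G).mpr hG.1⟩, ?_, rfl⟩
    rw [Finset.mem_coe, Finset.mem_filter]
    exact ⟨Finset.mem_univ _, hG.2⟩
  · intro F _
    rw [rename_X]

lemma rho_mon {r : ℕ} (hrn : r ≤ n) (m : Finset (Fin n) →₀ ℕ) (h : ∀ F ∈ m.support, F.Nonempty ∧ F.card < r) :
    rho n r (mon r m) = monomial m 1 := by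
  rw [monomial_eq, C_1, one_mul]
  unfold mon Finsupp.prod
  rw [map_prod]
  apply Finset.prod_congr rfl
  intro F hF
  rw [map_pow]
  congr 1
  unfold xx rho
  rw [dif_pos ((isP_iff hrn F).mpr (h F hF)), rename_X]

lemma kill {r : ℕ} (hrn : r ≤ n) (x : MvPolynomial (PFlats n r) ℚ) (hx : x ∈ chowIdeal n r) :
    ∀ p : MvPolynomial (PFlats n r) ℚ, Lam (r - 1) (rho n r (p * x)) = 0 := by
  unfold chowIdeal at hx
  induction hx using Submodule.span_induction with
  | mem x hx =>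
    intro p
    rcases hx with ⟨F, G, h1, h2, rfl⟩ | ⟨i, j, rfl⟩
    · rw [map_mul (rho n r), map_mul (rho n r)]
      unfold rho
      rw [rename_X, rename_X]
      exact Lam_incomp (r - 1) F.1 G.1 h1 h2 _
    · rw [map_mul (rho n r), map_sub]
      have h1 := rho_al hrn i
      have h2 := rho_al hrn j
      unfold al at h1 h2
      rw [h1, h2]
      exact Lam_J r (by rw [Fintype.card_fin]; exact hrn) i j _
  | zero => intro p; simp
  | add x y _ _ h1 h2 => intro p; rw [mul_add, map_add, map_add, h1, h2, add_zero]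
  | smul c x _ h => intro p; rw [smul_eq_mul, ← mul_assoc]; exact h _

/-- index set of the Feichtner-Yuzvinsky basis. -/
noncomputable def Idx0 (n r : ℕ) : Finset (Σ _ : Finset (Fin n), ((Finset (Fin n) →₀ ℕ) × (Finset (Fin n) →₀ ℕ)) × ℕ) :=
  (fil (fun T : Finset (Fin n) => T.card < r)).sigma fun T => fyS n T ×ˢ range (r - T.card)

noncomputable def Idx (n r k : ℕ) : Finset (Σ _ : Finset (Fin n), ((Finset (Fin n) →₀ ℕ) × (Finset (Fin n) →₀ ℕ)) × ℕ) :=
  (Idx0 n r).filter (fun i => i.2.1.1.degree + i.2.2 = k)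

lemma mem_Idx {n r k : ℕ} (i : Σ _ : Finset (Fin n), ((Finset (Fin n) →₀ ℕ) × (Finset (Fin n) →₀ ℕ)) × ℕ) :
    i ∈ Idx n r k ↔ (i.1.card < r ∧ FY i.1 i.2.1.1 i.2.1.2 ∧ i.2.2 < r - i.1.card) ∧ i.2.1.1.degree + i.2.2 = k := by
  obtain ⟨T, ⟨p, c⟩⟩ := i
  unfold Idx Idx0
  rw [Finset.mem_filter, Finset.mem_sigma, mem_fil, Finset.mem_product, Finset.mem_range,
    mem_fyS n T (by simpa using Finset.card_le_univ T)]

/-- basis polynomials. -/
noncomputable def BB (r : ℕ) (a : Fin n) (i : Σ _ : Finset (Fin n), ((Finset (Fin n) →₀ ℕ) × (Finset (Fin n) →₀ ℕ)) × ℕ) :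
    MvPolynomial (PFlats n r) ℚ := mon r i.2.1.1 * al r a ^ i.2.2

lemma Ch.chain {α : Type} [Fintype α] [DecidableEq α] {T : Finset α} {m : Finset α →₀ ℕ} (h : Ch T m) :
    ∀ F ∈ m.support, ∀ G ∈ m.support, F ⊆ G ∨ G ⊆ F := by
  induction h with
  | zero => intro F hF; simp at hF
  | @step P T m a h1 h2 h3 ih =>
    intro F hF G hG
    rw [supp_add_single _ _ _ h3] at hF hG
    rcases hF with hF | rfl
    · rcases hG with hG | rfl
      · exact ih F hF G hG
      · left; exact ((h1.supp F hF).1.trans_ssubset h2).subset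
    · rcases hG with hG | rfl
      · right; exact ((h1.supp G hG).1.trans_ssubset h2).subset
      · left; exact subset_rfl

lemma FY.isCh {T : Finset (Fin n)} {m m' : Finset (Fin n) →₀ ℕ} (h : FY T m m') (hT : T ≠ univ) : IsCh (m + m') := by
  have hs : ∀ F ∈ (m + m').support, F ∈ m.support := by
    intro F hF
    have := Finsupp.support_add hF
    rw [Finset.mem_union, h.supp_iff F] at this
    exact this.elim id id
  refine ⟨fun F hF G hG => h.ch.chain F (hs F hF) G (hs G hG), fun F hF => ?_⟩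
  have h1 := h.ch.supp F (hs F hF)
  refine ⟨h1.2, ?_⟩
  rintro rfl
  exact hT (Finset.eq_univ_of_forall fun x => h1.1 (Finset.mem_univ x))

lemma pairing {r k : ℕ} (hrn : r ≤ n) (hr : 1 ≤ r) (a : Fin n)
    (i j : Σ _ : Finset (Fin n), ((Finset (Fin n) →₀ ℕ) × (Finset (Fin n) →₀ ℕ)) × ℕ) (hi : i ∈ Idx n r k) (hj : j ∈ Idx n r k) :
    Lam (r - 1) (rho n r (mon r j.2.1.2 * al r a ^ (r - 1 - j.1.card - j.2.2) * BB r a i)) =
      vv (i.2.1.1 + j.2.1.2).degree (i.2.1.1 + j.2.1.2) := by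
  rw [mem_Idx] at hi hj
  obtain ⟨⟨hi1, hi2, hi3⟩, hi4⟩ := hi
  obtain ⟨⟨hj1, hj2, hj3⟩, hj4⟩ := hj
  have hsi : ∀ F ∈ i.2.1.1.support, F.Nonempty ∧ F.card < r := fun F hF =>
    ⟨(hi2.ch.supp F hF).2, (Finset.card_le_card (hi2.ch.supp F hF).1).trans_lt hi1⟩
  have hsj : ∀ F ∈ j.2.1.2.support, F.Nonempty ∧ F.card < r := fun F hF =>
    ⟨(hj2.ch'.supp F hF).2, (Finset.card_le_card (hj2.ch'.supp F hF).1).trans_lt hj1⟩
  unfold BB
  rw [map_mul (rho n r), map_mul (rho n r), map_mul (rho n r), map_pow, map_pow, rho_al hrn, rho_mon hrn _ hsi, rho_mon hrn _ hsj]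
  have e1 : (monomial j.2.1.2 (1 : ℚ)) * alp r a ^ (r - 1 - j.1.card - j.2.2) * ((monomial i.2.1.1 (1 : ℚ)) * alp r a ^ i.2.2) =
      monomial (i.2.1.1 + j.2.1.2) (1 : ℚ) * alp r a ^ (i.2.2 + (r - 1 - j.1.card - j.2.2)) := by
    rw [pow_add]
    have : (monomial (i.2.1.1 + j.2.1.2) (1 : ℚ)) = monomial i.2.1.1 (1 : ℚ) * monomial j.2.1.2 (1 : ℚ) := by
      rw [monomial_mul, one_mul]
    rw [this]; ring
  rw [e1]
  have hdeg := hj2.deg
  have e2 : r - 1 = (i.2.1.1 + j.2.1.2).degree + (i.2.2 + (r - 1 - j.1.card - j.2.2)) := by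
    rw [map_add]; omega
  have e3 := Lam_alp_pow r (by rw [Fintype.card_fin]; exact hrn) a (i.2.2 + (r - 1 - j.1.card - j.2.2))
    (i.2.1.1 + j.2.1.2).degree (by omega) (monomial (i.2.1.1 + j.2.1.2) (1 : ℚ))
  rw [← e2] at e3
  rw [e3, Lam_monomial]

theorem indep {r k : ℕ} (hrn : r < n) (hr : 1 ≤ r) (a : Fin n) :
    LinearIndependent ℚ (fun i : Idx n r k => (Ideal.Quotient.mkₐ ℚ (chowIdeal n r) (BB r a i.1) : ChowRing n r)) := by
  classical
  rw [Fintype.linearIndependent_iff]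
  intro g hg
  by_contra hcon
  push Not at hcon
  have hne : (univ.filter (fun i : Idx n r k => g i ≠ 0)).Nonempty := by
    obtain ⟨i, hi⟩ := hcon
    exact ⟨i, by simp [hi]⟩
  obtain ⟨j, hj, hmax⟩ := Finset.exists_max_image _ (fun i : Idx n r k => toLex (lev i.1.2.1.1)) hne
  rw [Finset.mem_filter] at hj
  have hmem : ∑ i : Idx n r k, g i • BB r a i.1 ∈ chowIdeal n r := by
    rw [← Ideal.Quotient.eq_zero_iff_mem]
    have h1 : (Ideal.Quotient.mk (chowIdeal n r)) (∑ i : Idx n r k, g i • BB r a i.1) =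
        ∑ i : Idx n r k, g i • (Ideal.Quotient.mkₐ ℚ (chowIdeal n r) (BB r a i.1) : ChowRing n r) := by
      have := map_sum (Ideal.Quotient.mkₐ ℚ (chowIdeal n r)) (fun i : Idx n r k => g i • BB r a i.1) univ
      simp only [map_smul] at this
      exact this
    rw [h1, hg]
  have hk := kill hrn.le _ hmem (mon r j.1.2.1.2 * al r a ^ (r - 1 - j.1.1.card - j.1.2.2))
  rw [Finset.mul_sum, map_sum, map_sum] at hk
  have hterm : ∀ i : Idx n r k, Lam (r - 1) (rho n r (mon r j.1.2.1.2 * al r a ^ (r - 1 - j.1.1.card - j.1.2.2) * g i • BB r a i.1)) =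
      g i * vv (i.1.2.1.1 + j.1.2.1.2).degree (i.1.2.1.1 + j.1.2.1.2) := by
    intro i
    rw [mul_smul_comm, map_smul, map_smul, pairing hrn.le hr a i.1 j.1 i.2 j.2, smul_eq_mul]
  rw [Finset.sum_congr rfl (fun i _ => hterm i)] at hk
  have hj2 := (mem_Idx j.1).mp j.2
  have hTu : ∀ i : Idx n r k, i.1.1 ≠ univ := by
    intro i hi
    have := ((mem_Idx i.1).mp i.2).1.1
    rw [hi, Finset.card_univ, Fintype.card_fin] at this
    omega
  rw [Finset.sum_eq_single j] at hk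
  · rcases mul_eq_zero.mp hk with h | h
    · exact hj.2 h
    · unfold vv at h
      rw [if_pos ⟨rfl, hj2.1.2.1.isCh (hTu j)⟩] at h
      exact hj2.1.2.1.nonvanish (by exact_mod_cast h)
  · intro i _ hij
    by_cases hgi : g i = 0
    · rw [hgi, zero_mul]
    · have hi2 := (mem_Idx i.1).mp i.2
      have hle := hmax i (by simp [hgi])
      unfold vv
      split_ifs with h1
      · by_cases h2 : psiF univ (i.1.2.1.1 + j.1.2.1.2) = 0
        · rw [h2]; simp
        · exfalso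
          have h3 := hj2.1.2.1.tri (hTu j) h1.2 h2 hle
          have h4 := hi2.1.2.1
          rw [h3] at h4
          obtain ⟨h5, h6⟩ := h4.unique hj2.1.2.1
          apply hij
          apply Subtype.ext
          obtain ⟨⟨T, ⟨⟨p1, p2⟩, c⟩⟩, hi⟩ := i
          obtain ⟨⟨T', ⟨⟨p1', p2'⟩, c'⟩⟩, hj'⟩ := j
          dsimp only at h3 h5 h6 hi2 hj2 ⊢
          subst h3 h5 h6
          have : c = c' := by
            have e1 := hi2.2
            have e2 := hj2.2
            omega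
          rw [this]
      · rw [mul_zero]
  · intro h; exact absurd (Finset.mem_univ _) h

end

end Pool.Agent.H323FY
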