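import Mathlib
import Pool.Agent.H323FY.Indep

set_option autoImplicit false
set_option linter.unusedSectionVars false

namespace Pool.Agent.H323FY

open Finset MvPolynomial

section
variable {n : ℕ}

/-- class of a set in the Chow ring (`x_E = -α`). -/
noncomputable def yy (r : ℕ) (a : Fin n) (F : Finset (Fin n)) : ChowRing n r :=
  if F = univ then - Ideal.Quotient.mk (chowIdeal n r) (al r a) else Ideal.Quotient.mk (chowIdeal n r) (xx r F)

lemma xx_zero {r : ℕ} (hrn : r ≤ n) (F : Finset (Fin n)) (h : ¬ (F.Nonempty ∧ F.card < r)) : xx r F = 0 := by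
  unfold xx
  rw [dif_neg]
  rwa [isP_iff hrn]

lemma yy_zero {r : ℕ} (hrn : r ≤ n) (a : Fin n) (F : Finset (Fin n)) (h1 : F ≠ univ) (h : ¬ (F.Nonempty ∧ F.card < r)) :
    yy r a F = 0 := by
  unfold yy
  rw [if_neg h1, xx_zero hrn F h, map_zero]

lemma yy_incomp {r : ℕ} (hrn : r ≤ n) (a : Fin n) (F G : Finset (Fin n)) (h1 : ¬ F ⊆ G) (h2 : ¬ G ⊆ F) :
    yy r a F * yy r a G = 0 := by
  have hF : F ≠ univ := by rintro rfl; exact h2 (Finset.subset_univ _)
  have hG : G ≠ univ := by rintro rfl; exact h1 (Finset.subset_univ _)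
  by_cases hF2 : F.Nonempty ∧ F.card < r
  · by_cases hG2 : G.Nonempty ∧ G.card < r
    · unfold yy xx
      rw [if_neg hF, if_neg hG, dif_pos ((isP_iff hrn F).mpr hF2), dif_pos ((isP_iff hrn G).mpr hG2), ← map_mul,
        Ideal.Quotient.eq_zero_iff_mem]
      apply Ideal.subset_span
      left
      exact ⟨_, _, h1, h2, rfl⟩
    · rw [yy_zero hrn a G hG hG2, mul_zero]
  · rw [yy_zero hrn a F hF hF2, zero_mul]

lemma al_eq {r : ℕ} (hrn : r ≤ n) (b : Fin n) :
    ∑ F ∈ fil (fun F : Finset (Fin n) => b ∈ F ∧ F ≠ univ), xx r F = al r b := by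
  unfold al
  have hsub : fil (fun F : Finset (Fin n) => (F.Nonempty ∧ F.card < r) ∧ b ∈ F) ⊆ fil (fun F : Finset (Fin n) => b ∈ F ∧ F ≠ univ) := by
    intro F hF
    rw [mem_fil] at hF ⊢
    refine ⟨hF.2, ?_⟩
    exact ((isP_iff hrn F).mpr hF.1).2.2
  rw [← Finset.sum_subset hsub]
  · symm
    apply Finset.sum_nbij (fun F => F.1)
    · intro F hF
      rw [Finset.mem_filter] at hF
      rw [mem_fil]
      exact ⟨(isP_iff hrn F.1).mp F.2, hF.2⟩
    · intro F _ G _ h
      exact Subtype.ext h
    · intro G hG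
      rw [Finset.mem_coe, mem_fil] at hG
      refine ⟨⟨G, (isP_iff hrn G).mpr hG.1⟩, ?_, rfl⟩
      rw [Finset.mem_coe, Finset.mem_filter]
      exact ⟨Finset.mem_univ _, hG.2⟩
    · intro F _
      unfold xx
      rw [dif_pos F.2]
  · intro F hF hF2
    rw [mem_fil] at hF hF2
    apply xx_zero hrn
    intro h
    exact hF2 ⟨h, hF.1⟩

lemma yy_J {r : ℕ} (hrn : r ≤ n) (a b : Fin n) : ∑ F ∈ fil (fun F : Finset (Fin n) => b ∈ F), yy r a F = 0 := by
  have h1 : fil (fun F : Finset (Fin n) => b ∈ F) = insert univ (fil (fun F : Finset (Fin n) => b ∈ F ∧ F ≠ univ)) := by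
    ext F
    rw [Finset.mem_insert, mem_fil, mem_fil]
    constructor
    · intro h
      by_cases h2 : F = univ
      · left; exact h2
      · right; exact ⟨h, h2⟩
    · rintro (h | h)
      · rw [h]; exact Finset.mem_univ _
      · exact h.1
  rw [h1, Finset.sum_insert (by rw [mem_fil]; rintro ⟨_, h⟩; exact h rfl)]
  have h2 : ∑ F ∈ fil (fun F : Finset (Fin n) => b ∈ F ∧ F ≠ univ), yy r a F = Ideal.Quotient.mk (chowIdeal n r) (al r b) := by
    rw [← al_eq hrn, map_sum]
    apply Finset.sum_congr rfl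
    intro F hF
    rw [mem_fil] at hF
    unfold yy
    rw [if_neg hF.2]
  rw [h2]
  unfold yy
  rw [if_pos rfl, neg_add_eq_sub, ← map_sub, Ideal.Quotient.eq_zero_iff_mem]
  apply Ideal.subset_span
  right
  exact ⟨b, a, rfl⟩

/-- `h_T = ∑_{H ⊇ T} x_H`. -/
noncomputable def hsum (r : ℕ) (a : Fin n) (T : Finset (Fin n)) : ChowRing n r :=
  ∑ H ∈ fil (fun H : Finset (Fin n) => T ⊆ H), yy r a H

noncomputable def zz (r : ℕ) (a : Fin n) (P : Finset (Fin n)) : ChowRing n r := if P = ∅ then 1 else yy r a P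

lemma KEY {r : ℕ} (hrn : r ≤ n) (a : Fin n) : ∀ (g : ℕ) (P T : Finset (Fin n)), ¬ T ⊆ P → P.card < r →
    ((T \ P).card ≤ g ∨ r ≤ P.card + g) → zz r a P * hsum r a T ^ g = 0 := by
  intro g
  induction g with
  | zero =>
    intro P T h1 h2 h3
    exfalso
    rcases h3 with h3 | h3
    · apply h1
      rw [← Finset.sdiff_eq_empty_iff_subset, ← Finset.card_eq_zero]; omega
    · omega
  | succ g ih =>
    intro P T h1 h2 h3
    obtain ⟨b, hbT, hbP⟩ := Finset.not_subset.mp h1
    have hsplit : hsum r a T + ∑ H ∈ fil (fun H : Finset (Fin n) => b ∈ H ∧ ¬ T ⊆ H), yy r a H = 0 := by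
      have hJ := yy_J hrn a b
      have hset : fil (fun H : Finset (Fin n) => b ∈ H) =
          fil (fun H : Finset (Fin n) => T ⊆ H) ∪ fil (fun H : Finset (Fin n) => b ∈ H ∧ ¬ T ⊆ H) := by
        ext H
        rw [Finset.mem_union, mem_fil, mem_fil, mem_fil]
        constructor
        · intro h
          by_cases h' : T ⊆ H
          · left; exact h'
          · right; exact ⟨h, h'⟩
        · rintro (h | h)
          · exact h hbT
          · exact h.1
      rw [hset, Finset.sum_union] at hJ
      · unfold hsum; exact hJ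
      · rw [Finset.disjoint_left]
        intro H hH hH2
        rw [mem_fil] at hH hH2
        exact hH2.2 hH
    suffices hS : zz r a P * (∑ H ∈ fil (fun H : Finset (Fin n) => b ∈ H ∧ ¬ T ⊆ H), yy r a H) * hsum r a T ^ g = 0 by
      linear_combination (zz r a P * hsum r a T ^ g) * hsplit - hS
    rw [Finset.mul_sum, Finset.sum_mul]
    apply Finset.sum_eq_zero
    intro H hH
    rw [mem_fil] at hH
    obtain ⟨hbH, hTH⟩ := hH
    have hHu : H ≠ univ := by rintro rfl; exact hTH (Finset.subset_univ _)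
    have hHne : H ≠ ∅ := by rintro rfl; simp at hbH
    by_cases hPH : P ⊆ H
    · by_cases hHr : H.card < r
      · have hlt : P.card < H.card := Finset.card_lt_card ⟨hPH, fun h => hbP (h hbH)⟩
        have h4 := ih H T hTH hHr (by
          rcases h3 with h3 | h3
          · left
            have : (T \ H).card < (T \ P).card := by
              apply Finset.card_lt_card
              refine ⟨Finset.sdiff_subset_sdiff subset_rfl hPH, fun h => ?_⟩
              have := h (Finset.mem_sdiff.mpr ⟨hbT, hbP⟩)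
              exact (Finset.mem_sdiff.mp this).2 hbH
            omega
          · right; omega)
        unfold zz at h4
        rw [if_neg hHne] at h4
        rw [mul_assoc, h4, mul_zero]
      · rw [yy_zero hrn a H hHu (fun h => hHr h.2), mul_zero, zero_mul]
    · have hPne : P ≠ ∅ := by rintro rfl; exact hPH (Finset.empty_subset _)
      unfold zz
      rw [if_neg hPne, yy_incomp hrn a P H hPH (fun h => hbP (h hbH)), zero_mul]

/-- monomials in the Chow ring. -/
noncomputable def MM (r : ℕ) (a : Fin n) (m : Finset (Fin n) →₀ ℕ) : ChowRing n r := m.prod (fun F e => yy r a F ^ e)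

lemma MM_add (r : ℕ) (a : Fin n) (m m' : Finset (Fin n) →₀ ℕ) : MM r a (m + m') = MM r a m * MM r a m' := by
  unfold MM
  rw [Finsupp.prod_add_index']
  · intro F; exact pow_zero _
  · intro F b c; exact pow_add _ _ _

lemma MM_single (r : ℕ) (a : Fin n) (T : Finset (Fin n)) (e : ℕ) : MM r a (Finsupp.single T e) = yy r a T ^ e := by
  unfold MM
  rw [Finsupp.prod_single_index]
  exact pow_zero _

lemma MM_zero (r : ℕ) (a : Fin n) : MM r a (0 : Finset (Fin n) →₀ ℕ) = 1 := by
  unfold MM; exact Finsupp.prod_zero_index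

/-- weight. -/
noncomputable def wt (m : Finset (Fin n) →₀ ℕ) : ℕ := m.sum (fun F e => e * F.card)

lemma wt_add (m m' : Finset (Fin n) →₀ ℕ) : wt (m + m') = wt m + wt m' := by
  unfold wt
  rw [Finsupp.sum_add_index']
  · intro F; exact zero_mul _
  · intro F b c; exact add_mul _ _ _

lemma wt_single (T : Finset (Fin n)) (e : ℕ) : wt (Finsupp.single T e) = e * T.card := by
  unfold wt
  rw [Finsupp.sum_single_index]
  exact zero_mul _

lemma wt_zero : wt (0 : Finset (Fin n) →₀ ℕ) = 0 := by
  unfold wt; exact Finsupp.sum_zero_index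

lemma wt_le (m : Finset (Fin n) →₀ ℕ) : wt m ≤ m.degree * n := by
  unfold wt Finsupp.sum
  rw [Finsupp.degree_apply, Finset.sum_mul]
  apply Finset.sum_le_sum
  intro F _
  exact Nat.mul_le_mul_left _ (by simpa using Finset.card_le_univ F)

/-- filtration by weight. -/
noncomputable def WW (r : ℕ) (a : Fin n) (k w : ℕ) : Submodule ℚ (ChowRing n r) :=
  Submodule.span ℚ {x | ∃ m : Finset (Fin n) →₀ ℕ, m.degree = k ∧ w ≤ wt m ∧ x = MM r a m}

lemma WW_mul {r : ℕ} {a : Fin n} {k k' w w' : ℕ} {x y : ChowRing n r} (hx : x ∈ WW r a k w) (hy : y ∈ WW r a k' w') :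
    x * y ∈ WW r a (k + k') (w + w') := by
  have h1 : WW r a k w * WW r a k' w' ≤ WW r a (k + k') (w + w') := by
    unfold WW
    rw [Submodule.span_mul_span, Submodule.span_le]
    rintro _ ⟨x, ⟨m, hm1, hm2, rfl⟩, y, ⟨m', hm1', hm2', rfl⟩, rfl⟩
    apply Submodule.subset_span
    refine ⟨m + m', by rw [map_add, hm1, hm1'], by rw [wt_add]; omega, ?_⟩
    rw [MM_add]
  exact h1 (Submodule.mul_mem_mul hx hy)

lemma WW_mono {r : ℕ} {a : Fin n} {k w w' : ℕ} (h : w ≤ w') : WW r a k w' ≤ WW r a k w := by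
  unfold WW
  apply Submodule.span_mono
  rintro x ⟨m, h1, h2, h3⟩
  exact ⟨m, h1, h.trans h2, h3⟩

lemma MM_mem {r : ℕ} {a : Fin n} (m : Finset (Fin n) →₀ ℕ) : MM r a m ∈ WW r a m.degree (wt m) :=
  Submodule.subset_span ⟨m, rfl, le_rfl, rfl⟩

lemma yy_pow_mem {r : ℕ} {a : Fin n} (T : Finset (Fin n)) (e : ℕ) : yy r a T ^ e ∈ WW r a e (e * T.card) := by
  have := MM_mem (r := r) (a := a) (Finsupp.single T e)
  rwa [MM_single, Finsupp.degree_single, wt_single] at this

lemma yy_mem {r : ℕ} {a : Fin n} (T : Finset (Fin n)) {w : ℕ} (h : w ≤ T.card) : yy r a T ∈ WW r a 1 w := by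
  have := yy_pow_mem (r := r) (a := a) T 1
  rw [pow_one, one_mul] at this
  exact WW_mono h this

lemma hT_sub_mem {r : ℕ} {a : Fin n} (T : Finset (Fin n)) : hsum r a T - yy r a T ∈ WW r a 1 (T.card + 1) := by
  have h1 : fil (fun H : Finset (Fin n) => T ⊆ H) = insert T (fil (fun H : Finset (Fin n) => T ⊂ H)) := by
    ext H
    rw [Finset.mem_insert, mem_fil, mem_fil]
    constructor
    · intro h
      by_cases h2 : H = T
      · left; exact h2
      · right; exact h.ssubset_of_ne (Ne.symm h2)
    · rintro (h | h)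
      · rw [h]
      · exact h.subset
  unfold hsum
  rw [h1, Finset.sum_insert (by rw [mem_fil]; exact ssubset_irrefl _), add_sub_cancel_left]
  apply Submodule.sum_mem
  intro H hH
  rw [mem_fil] at hH
  exact yy_mem H (Finset.card_lt_card hH)

lemma hT_mem {r : ℕ} {a : Fin n} (T : Finset (Fin n)) : hsum r a T ∈ WW r a 1 T.card := by
  have h1 := hT_sub_mem (r := r) (a := a) T
  have h2 := yy_mem (r := r) (a := a) T le_rfl
  have := Submodule.add_mem _ (WW_mono (Nat.le_succ _) h1) h2
  rwa [sub_add_cancel] at this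

lemma hT_pow_sub {r : ℕ} {a : Fin n} (T : Finset (Fin n)) (g : ℕ) :
    hsum r a T ^ g - yy r a T ^ g ∈ WW r a g (g * T.card + 1) := by
  induction g with
  | zero => simp
  | succ g ih =>
    have e : hsum r a T ^ (g + 1) - yy r a T ^ (g + 1) =
        (hsum r a T ^ g - yy r a T ^ g) * hsum r a T + yy r a T ^ g * (hsum r a T - yy r a T) := by ring
    rw [e]
    apply Submodule.add_mem
    · have := WW_mul ih (hT_mem (r := r) (a := a) T)
      have e2 : g * T.card + 1 + T.card = (g + 1) * T.card + 1 := by ring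
      rwa [e2] at this
    · have := WW_mul (yy_pow_mem (r := r) (a := a) T g) (hT_sub_mem (r := r) (a := a) T)
      have e2 : g * T.card + (T.card + 1) = (g + 1) * T.card + 1 := by ring
      rwa [e2] at this

lemma Ch_factor {r : ℕ} {a : Fin n} {P : Finset (Fin n)} {m : Finset (Fin n) →₀ ℕ} (h : Ch P m) :
    ∃ x, MM r a m = x * zz r a P := by
  cases h with
  | zero => exact ⟨1, by rw [MM_zero]; unfold zz; rw [if_pos rfl, one_mul]⟩
  | @step P' _ m e h1 h2 h3 =>
    obtain ⟨c, rfl⟩ : ∃ c, e = c + 1 := ⟨e - 1, by omega⟩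
    refine ⟨MM r a m * yy r a P ^ c, ?_⟩
    have : P ≠ ∅ := by rintro rfl; exact Finset.not_ssubset_empty _ h2
    rw [MM_add, MM_single, pow_succ]
    unfold zz
    rw [if_neg this, mul_assoc]

lemma DICH {r : ℕ} (hrn : r ≤ n) {a : Fin n} {T : Finset (Fin n)} {m : Finset (Fin n) →₀ ℕ} (h : Ch T m) :
    T.card < r → (∃ m', FY T m m') ∨ MM r a m ∈ WW r a m.degree (wt m + 1) := by
  induction h with
  | zero => intro _; left; exact ⟨0, FY.zero⟩
  | @step P T m e h1 h2 h3 ih =>
    intro hT'
    have hlt := Finset.card_lt_card h2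
    rw [map_add, Finsupp.degree_single, wt_add, wt_single, MM_add, MM_single]
    rcases ih (by omega) with ⟨m', h4⟩ | h4
    · by_cases h5 : e + P.card < T.card
      · left; exact ⟨_, FY.step h4 h2 (by omega) h5⟩
      · right
        obtain ⟨x, hx⟩ := Ch_factor (r := r) (a := a) h1
        set g := T.card - P.card with hg
        have hkey := KEY hrn a g P T (fun h => ssubset_irrefl _ (h2.trans_subset h)) (by omega)
          (Or.inl (by rw [Finset.card_sdiff_of_subset h2.subset]))
        have e1 : MM r a m * yy r a T ^ e = - (MM r a m * (hsum r a T ^ g - yy r a T ^ g)) * yy r a T ^ (e - g) := by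
          have e2 : yy r a T ^ e = yy r a T ^ g * yy r a T ^ (e - g) := by
            rw [← pow_add]; congr 1; omega
          have e3 : MM r a m * hsum r a T ^ g = 0 := by rw [hx, mul_assoc, hkey, mul_zero]
          rw [e2, mul_sub, e3]; ring
        rw [e1]
        have h6 := WW_mul (Submodule.neg_mem _ (WW_mul (MM_mem (r := r) (a := a) m) (hT_pow_sub (r := r) (a := a) T g)))
          (yy_pow_mem (r := r) (a := a) T (e - g))
        have e4 : m.degree + g + (e - g) = m.degree + e := by omega
        have e5 : wt m + (g * T.card + 1) + (e - g) * T.card = wt m + e * T.card + 1 := by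
          obtain ⟨c, hc⟩ : ∃ c, e = g + c := ⟨e - g, by omega⟩
          rw [hc, Nat.add_sub_cancel_left]; ring
        rwa [e4, e5] at h6
    · right
      have h6 := WW_mul h4 (yy_pow_mem (r := r) (a := a) T e)
      have e5 : wt m + 1 + e * T.card = wt m + e * T.card + 1 := by ring
      rwa [e5] at h6

/-- span of the basis elements. -/
noncomputable def VV (r : ℕ) (a : Fin n) (k : ℕ) : Submodule ℚ (ChowRing n r) :=
  Submodule.span ℚ (Set.range (fun i : Idx n r k => (Ideal.Quotient.mkₐ ℚ (chowIdeal n r) (BB r a i.1) : ChowRing n r)))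

lemma MM_mon {r : ℕ} (a : Fin n) (m : Finset (Fin n) →₀ ℕ) (h : ∀ F ∈ m.support, F ≠ univ) :
    MM r a m = Ideal.Quotient.mk (chowIdeal n r) (mon r m) := by
  unfold MM mon Finsupp.prod
  rw [map_prod]
  apply Finset.prod_congr rfl
  intro F hF
  rw [map_pow]
  unfold yy
  dsimp only
  rw [if_neg (h F hF)]

lemma MM_eq_zero {r : ℕ} (a : Fin n) (m : Finset (Fin n) →₀ ℕ) (F : Finset (Fin n)) (hF : F ∈ m.support) (h : yy r a F = 0) :
    MM r a m = 0 := by
  unfold MM Finsupp.prod
  apply Finset.prod_eq_zero hF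
  dsimp only
  rw [h]
  exact zero_pow (Finsupp.mem_support_iff.mp hF)

lemma MM_eq_zero2 {r : ℕ} (hrn : r ≤ n) (a : Fin n) (m : Finset (Fin n) →₀ ℕ) (F G : Finset (Fin n)) (hF : F ∈ m.support) (hG : G ∈ m.support)
    (h1 : ¬ F ⊆ G) (h2 : ¬ G ⊆ F) : MM r a m = 0 := by
  have hFG : F ≠ G := by rintro rfl; exact h1 subset_rfl
  unfold MM Finsupp.prod
  rw [← Finset.mul_prod_erase _ _ hF, ← Finset.mul_prod_erase _ _ (Finset.mem_erase.mpr ⟨hFG.symm, hG⟩), ← mul_assoc]
  obtain ⟨c, hc⟩ := Nat.exists_eq_succ_of_ne_zero (Finsupp.mem_support_iff.mp hF)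
  obtain ⟨d, hd⟩ := Nat.exists_eq_succ_of_ne_zero (Finsupp.mem_support_iff.mp hG)
  dsimp only
  rw [hc, hd, pow_succ, pow_succ]
  have : yy r a F ^ c * yy r a F * (yy r a G ^ d * yy r a G) = yy r a F ^ c * yy r a G ^ d * (yy r a F * yy r a G) := by ring
  rw [this, yy_incomp hrn a F G h1 h2, mul_zero, zero_mul]

lemma MM_dich {r : ℕ} (hr : 1 ≤ r) (hrn : r < n) (a : Fin n) (m : Finset (Fin n) →₀ ℕ) :
    MM r a m ∈ VV r a m.degree ⊔ WW r a m.degree (wt m + 1) := by
  classical
  have hsplit : m = m.erase univ + Finsupp.single univ (m univ) := by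
    rw [add_comm]; exact (Finsupp.single_add_erase univ m).symm
  set m₀ := m.erase univ with hm₀
  set c := m univ with hc
  have hdeg : m.degree = m₀.degree + c := by
    conv_lhs => rw [hsplit]
    rw [map_add, Finsupp.degree_single]
  have hwt : wt m = wt m₀ + c * n := by
    conv_lhs => rw [hsplit]
    rw [wt_add, wt_single, Finset.card_univ, Fintype.card_fin]
  have hMM : MM r a m = MM r a m₀ * yy r a univ ^ c := by
    conv_lhs => rw [hsplit]
    rw [MM_add, MM_single]
  have hm0u : ∀ F ∈ m₀.support, F ≠ univ := by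
    intro F hF
    rw [hm₀, Finsupp.support_erase, Finset.mem_erase] at hF
    exact hF.1
  by_cases h1 : ∀ F ∈ m₀.support, F.Nonempty ∧ F.card < r
  · by_cases h2 : ∀ F ∈ m₀.support, ∀ G ∈ m₀.support, F ⊆ G ∨ G ⊆ F
    · have hch : IsCh m₀ := ⟨h2, fun F hF => ⟨(h1 F hF).1, hm0u F hF⟩⟩
      obtain ⟨T, hT, hT2⟩ := hch.exists_Ch
      have hTr : T.card < r := by
        rcases hT2 with h3 | h3
        · rw [h3, Finset.card_empty]; omega
        · exact (h1 T h3).2
      rcases DICH hrn.le (a := a) hT hTr with ⟨m', h3⟩ | h3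
      · by_cases h4 : c < r - T.card
        · apply Submodule.mem_sup_left
          have hmem : (⟨T, ((m₀, m'), c)⟩ : Σ _ : Finset (Fin n), ((Finset (Fin n) →₀ ℕ) × (Finset (Fin n) →₀ ℕ)) × ℕ) ∈ Idx n r m.degree := by
            rw [mem_Idx]
            exact ⟨⟨hTr, h3, h4⟩, hdeg.symm⟩
          have hb : MM r a m = (-1 : ℚ) ^ c • (Ideal.Quotient.mkₐ ℚ (chowIdeal n r)
              (BB r a (⟨T, ((m₀, m'), c)⟩ : Σ _ : Finset (Fin n), ((Finset (Fin n) →₀ ℕ) × (Finset (Fin n) →₀ ℕ)) × ℕ)) : ChowRing n r) := by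
            rw [← map_smul (Ideal.Quotient.mkₐ ℚ (chowIdeal n r)), MvPolynomial.smul_eq_C_mul, hMM, MM_mon a m₀ hm0u,
              Ideal.Quotient.mkₐ_eq_mk, map_pow, map_neg, map_one]
            unfold BB yy
            dsimp only
            rw [if_pos rfl, ← map_neg, ← map_pow, ← map_mul]
            congr 1
            rw [neg_pow (al r a) c]
            ring
          rw [hb]
          apply Submodule.smul_mem
          apply Submodule.subset_span
          exact ⟨⟨_, hmem⟩, rfl⟩
        · have : MM r a m = 0 := by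
            obtain ⟨x, hx⟩ := Ch_factor (r := r) (a := a) hT
            have huniv : hsum r a univ = yy r a univ := by
              unfold hsum
              have : fil (fun H : Finset (Fin n) => univ ⊆ H) = {univ} := by
                ext H
                rw [mem_fil, Finset.mem_singleton, Finset.univ_subset_iff]
              rw [this, Finset.sum_singleton]
            have hkey := KEY hrn.le a c T univ (fun h => by
              have := Finset.card_le_card h
              rw [Finset.card_univ, Fintype.card_fin] at this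
              omega) hTr (Or.inr (by omega))
            rw [huniv] at hkey
            rw [hMM, hx, mul_assoc, hkey, mul_zero]
          rw [this]
          exact Submodule.zero_mem _
      · apply Submodule.mem_sup_right
        rw [hMM, hdeg, hwt]
        have h6 := WW_mul h3 (yy_pow_mem (r := r) (a := a) univ c)
        rw [Finset.card_univ, Fintype.card_fin] at h6
        have e5 : wt m₀ + 1 + c * n = wt m₀ + c * n + 1 := by ring
        rwa [e5] at h6
    · push Not at h2
      obtain ⟨F, hF, G, hG, h3, h4⟩ := h2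
      rw [hMM, MM_eq_zero2 hrn.le a m₀ F G hF hG h3 h4, zero_mul]
      exact Submodule.zero_mem _
  · push Not at h1
    obtain ⟨F, hF, h3⟩ := h1
    rw [hMM, MM_eq_zero a m₀ F hF (yy_zero hrn.le a F (hm0u F hF) (fun h => absurd h.2 (by have := h3 h.1; omega))), zero_mul]
    exact Submodule.zero_mem _

end

end Pool.Agent.H323FY
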