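import Mathlib
import Pool.Agent.H323FY.Span

set_option autoImplicit false
set_option linter.unusedSectionVars false

namespace Pool.Agent.H323FY

open Finset

section
variable {n : ℕ}

lemma WW_step {r : ℕ} (hr : 1 ≤ r) (hrn : r < n) (a : Fin n) (k w : ℕ) :
    WW r a k w ≤ VV r a k ⊔ WW r a k (w + 1) := by
  rw [WW, Submodule.span_le]
  rintro x ⟨m, h1, h2, rfl⟩
  have h3 := MM_dich hr hrn a m
  rw [h1] at h3
  exact (sup_le_sup_left (WW_mono (by omega)) _) h3

lemma WW_zero_le {r : ℕ} (hr : 1 ≤ r) (hrn : r < n) (a : Fin n) (k : ℕ) : ∀ w, WW r a k 0 ≤ VV r a k ⊔ WW r a k w := by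
  intro w
  induction w with
  | zero => exact le_sup_right
  | succ w ih =>
    refine ih.trans (sup_le le_sup_left ?_)
    exact WW_step hr hrn a k w

lemma WW_le_VV {r : ℕ} (hr : 1 ≤ r) (hrn : r < n) (a : Fin n) (k : ℕ) : WW r a k 0 ≤ VV r a k := by
  have h := WW_zero_le hr hrn a k (k * n + 1)
  have h2 : WW r a k (k * n + 1) = ⊥ := by
    unfold WW
    rw [Submodule.span_eq_bot]
    rintro x ⟨m, h1, h2, _⟩
    exfalso
    have := wt_le m
    rw [h1] at this
    omega
  rw [h2, sup_bot_eq] at h
  exact h

lemma mk_monomial_mem {r : ℕ} (a : Fin n) (d : PFlats n r →₀ ℕ) (s : Finset (PFlats n r)) :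
    ∏ i ∈ s, (Ideal.Quotient.mk (chowIdeal n r) (MvPolynomial.X i)) ^ (d i) ∈ WW r a (∑ i ∈ s, d i) 0 := by
  classical
  induction s using Finset.induction_on with
  | empty =>
    rw [Finset.prod_empty, Finset.sum_empty]
    have := MM_mem (r := r) (a := a) (0 : Finset (Fin n) →₀ ℕ)
    rwa [MM_zero, map_zero, wt_zero] at this
  | insert i s hi ih =>
    rw [Finset.prod_insert hi, Finset.sum_insert hi]
    have h1 : Ideal.Quotient.mk (chowIdeal n r) (MvPolynomial.X i) = yy r a i.1 := by
      unfold yy xx
      rw [if_neg i.2.2.2, dif_pos i.2]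
    rw [h1]
    have h2 := WW_mul (WW_mono (Nat.zero_le _) (yy_pow_mem (r := r) (a := a) i.1 (d i))) ih
    rwa [Nat.zero_add] at h2

lemma chowPiece_le {r : ℕ} (a : Fin n) (k : ℕ) : chowPiece n r k ≤ WW r a k 0 := by
  unfold chowPiece
  rintro _ ⟨p, hp, rfl⟩
  rw [SetLike.mem_coe, MvPolynomial.mem_homogeneousSubmodule] at hp
  rw [p.as_sum, map_sum]
  apply Submodule.sum_mem
  intro d hd
  have hdeg : ∑ i ∈ d.support, d i = k := by
    have := hp (MvPolynomial.mem_support_iff.mp hd)
    rw [← this, Finsupp.weight_apply]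
    simp [Finsupp.sum]
  have h1 : MvPolynomial.monomial d (p.coeff d) = (p.coeff d) • MvPolynomial.monomial d (1 : ℚ) := by
    rw [MvPolynomial.smul_monomial, smul_eq_mul, mul_one]
  rw [h1, map_smul]
  apply Submodule.smul_mem
  have h2 := mk_monomial_mem (r := r) a d d.support
  rw [hdeg] at h2
  have h3 : (Ideal.Quotient.mkₐ ℚ (chowIdeal n r)).toLinearMap (MvPolynomial.monomial d (1 : ℚ)) =
      ∏ i ∈ d.support, (Ideal.Quotient.mk (chowIdeal n r) (MvPolynomial.X i)) ^ (d i) := by
    rw [MvPolynomial.monomial_eq, MvPolynomial.C_1, one_mul, AlgHom.toLinearMap_apply, Ideal.Quotient.mkₐ_eq_mk]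
    unfold Finsupp.prod
    rw [map_prod]
    apply Finset.prod_congr rfl
    intro i _
    rw [map_pow]
  rw [h3]; exact h2

lemma mon_homog {r : ℕ} (m : Finset (Fin n) →₀ ℕ) : (mon r m).IsHomogeneous m.degree := by
  unfold mon Finsupp.prod
  rw [Finsupp.degree_apply]
  apply MvPolynomial.IsHomogeneous.prod
  intro F _
  have h1 : (xx r F).IsHomogeneous 1 := by
    unfold xx
    split_ifs
    · exact MvPolynomial.isHomogeneous_X _ _
    · exact MvPolynomial.isHomogeneous_zero _ _ _
  simpa using h1.pow (m F)

lemma al_homog {r : ℕ} (a : Fin n) : (al r a).IsHomogeneous 1 := by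
  unfold al
  apply MvPolynomial.IsHomogeneous.sum
  intro F _
  exact MvPolynomial.isHomogeneous_X _ _

lemma VV_le {r : ℕ} (a : Fin n) (k : ℕ) : VV r a k ≤ chowPiece n r k := by
  unfold VV
  rw [Submodule.span_le]
  rintro _ ⟨i, rfl⟩
  have hi := (mem_Idx i.1).mp i.2
  refine ⟨BB r a i.1, ?_, rfl⟩
  rw [SetLike.mem_coe, MvPolynomial.mem_homogeneousSubmodule]
  have h1 : (BB r a i.1).IsHomogeneous (i.1.2.1.1.degree + i.1.2.2) := by
    unfold BB
    apply MvPolynomial.IsHomogeneous.mul (mon_homog _)
    simpa using (al_homog (r := r) a).pow i.1.2.2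
  rwa [hi.2] at h1

theorem finrank_piece {r : ℕ} (hr : 1 ≤ r) (hrn : r < n) (k : ℕ) :
    Module.finrank ℚ (chowPiece n r k) = (Idx n r k).card := by
  have a : Fin n := ⟨0, by omega⟩
  have h1 : chowPiece n r k = VV r a k :=
    le_antisymm ((chowPiece_le a k).trans (WW_le_VV hr hrn a k)) (VV_le a k)
  rw [h1]
  unfold VV
  rw [finrank_span_eq_card (indep hrn hr a), Fintype.card_coe]

open Polynomial in
lemma sum_Idx0 {r : ℕ} (hrn : r < n) :
    ∑ i ∈ Idx0 n r, (X : ℤ[X]) ^ (i.2.1.1.degree + i.2.2) = HH n r := by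
  unfold Idx0
  rw [Finset.sum_sigma]
  have h1 : ∀ T ∈ fil (fun T : Finset (Fin n) => T.card < r),
      ∑ x ∈ fyS n T ×ˢ range (r - T.card), (X : ℤ[X]) ^ (x.1.1.degree + x.2) = dp T.card * q (r - T.card) := by
    intro T hT
    rw [mem_fil] at hT
    rw [Finset.sum_product]
    unfold q
    rw [← sum_fyS n T (by simpa using Finset.card_le_univ T), Finset.sum_mul_sum]
    apply Finset.sum_congr rfl
    intro p _
    apply Finset.sum_congr rfl
    intro c _
    rw [pow_add]
  rw [Finset.sum_congr rfl h1, sum_card_lt r (by rw [Fintype.card_fin]; omega) (fun s => dp s * q (r - s))]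
  unfold HH
  rw [Fintype.card_fin]
  apply Finset.sum_congr rfl
  intro s _; ring

open Polynomial in
theorem hilbert_eq {r : ℕ} (hr : 1 ≤ r) (hrn : r < n) : hilbertSeries n r = ((HH n r : ℤ[X]) : PowerSeries ℤ) := by
  ext k
  unfold hilbertSeries
  rw [PowerSeries.coeff_mk, finrank_piece hr hrn, Polynomial.coeff_coe, ← sum_Idx0 hrn, Polynomial.finsetSum_coeff]
  unfold Idx
  rw [Finset.card_filter]
  push_cast
  apply Finset.sum_congr rfl
  intro i _
  rw [Polynomial.coeff_X_pow]
  by_cases h : i.2.1.1.degree + i.2.2 = k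
  · rw [if_pos h, if_pos h.symm]
  · rw [if_neg h, if_neg (Ne.symm h)]

/-- maximal size of a chain of flats. -/
lemma sup_card {r : ℕ} (hr : 1 ≤ r) (hrn : r < n) : (orderComplex (Flats n r)).sup Finset.card = r + 1 := by
  classical
  apply le_antisymm
  · apply Finset.sup_le
    intro σ hσ
    unfold orderComplex at hσ
    rw [Finset.mem_filter] at hσ
    have h1 : σ.card ≤ (Finset.range (r + 1)).card := by
      apply Finset.card_le_card_of_injOn (fun F => min F.1.card r)
      · intro F _
        rw [Finset.mem_coe, Finset.mem_range]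
        exact Nat.lt_succ_of_le (min_le_right _ _)
      · intro F hF G hG hFG
        dsimp only at hFG
        by_contra hne
        have key : ∀ F G : Flats n r, F ≤ G → min F.1.card r = min G.1.card r → F = G := by
          intro F G hle heq
          apply Subtype.ext
          have hsub : F.1 ⊆ G.1 := hle
          rcases F.2 with hF | hF
          · rcases G.2 with hG | hG
            · exact Finset.eq_of_subset_of_card_le hsub (by omega)
            · rw [hG, Finset.card_univ, Fintype.card_fin] at heq
              omega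
          · rw [hF] at hsub ⊢
            exact (Finset.univ_subset_iff.mp hsub).symm
        rcases hσ.2 hF hG hne with h | h
        · exact hne (key F G h hFG)
        · exact hne (key G F h hFG.symm).symm
    rwa [Finset.card_range] at h1
  · -- a maximal chain
    let f : ℕ → Flats n r := fun i => if h : i < r then ⟨univ.filter (fun x : Fin n => x.1 < i), Or.inl (by
        have : (univ.filter (fun x : Fin n => x.1 < i)).card = i := by
          rw [Fin.card_filter_val_lt]; omega
        rw [this]; exact h)⟩ else ⟨univ, Or.inr rfl⟩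
    have hcard : ∀ i, i < r → (f i).1.card = i := by
      intro i hi
      have : (f i).1 = univ.filter (fun x : Fin n => x.1 < i) := by
        simp only [f]; rw [dif_pos hi]
      rw [this, Fin.card_filter_val_lt]; omega
    have htop : (f r).1 = univ := by
      simp only [f]; rw [dif_neg (lt_irrefl r)]
    have hmono : ∀ i j, i ≤ j → j ≤ r → f i ≤ f j := by
      intro i j hij hjr
      rcases lt_or_eq_of_le hjr with h | h
      · simp only [f]
        rw [dif_pos (by omega : i < r), dif_pos h]
        intro x hx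
        simp only [Finset.mem_filter, Finset.mem_univ, true_and] at hx ⊢
        omega
      · subst h
        show (f i).1 ⊆ (f j).1
        rw [htop]; exact Finset.subset_univ _
    have hcardr : (f r).1.card = n := by rw [htop, Finset.card_univ, Fintype.card_fin]
    have hinj : Set.InjOn f (Finset.range (r + 1) : Set ℕ) := by
      intro i hi j hj hij
      rw [Finset.mem_coe, Finset.mem_range] at hi hj
      have h : (f i).1.card = (f j).1.card := congrArg (fun F : Flats n r => F.1.card) hij
      rcases Nat.lt_succ_iff_lt_or_eq.mp hi with h1 | h1 <;> rcases Nat.lt_succ_iff_lt_or_eq.mp hj with h2 | h2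
      · rw [hcard i h1, hcard j h2] at h; exact h
      · subst h2; rw [hcard i h1, hcardr] at h; omega
      · subst h1; rw [hcard j h2, hcardr] at h; omega
      · omega
    have hmem : (Finset.range (r + 1)).image f ∈ orderComplex (Flats n r) := by
      unfold orderComplex
      rw [Finset.mem_filter]
      refine ⟨Finset.mem_univ _, ?_⟩
      intro x hx y hy _
      rw [Finset.mem_coe, Finset.mem_image] at hx hy
      obtain ⟨i, hi, rfl⟩ := hx
      obtain ⟨j, hj, rfl⟩ := hy
      rw [Finset.mem_range] at hi hj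
      rcases le_total i j with h | h
      · left; exact hmono i j h (by omega)
      · right; exact hmono j i h (by omega)
    have := Finset.le_sup (f := Finset.card) hmem
    rw [Finset.card_image_of_injOn hinj, Finset.card_range] at this
    exact this

open Polynomial in
lemma hPoly_eq {r : ℕ} (hr : 1 ≤ r) (hrn : r < n) : hPoly (orderComplex (Flats n r)) = X ^ 2 * hh n r := by
  classical
  have hlat := sum_lattice (α := Fin n) r hr (by rw [Fintype.card_fin]; omega)
  rw [Fintype.card_fin] at hlat
  rw [← hlat]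
  unfold hPoly
  rw [sup_card hr hrn]
  have h1 : ∑ i ∈ range (r + 1 + 1), (((orderComplex (Flats n r)).filter (fun s => s.card = i)).card : ℤ[X]) * (X - 1) ^ (r + 1 - i) =
      ∑ s ∈ orderComplex (Flats n r), (X - 1 : ℤ[X]) ^ (r + 1 - s.card) := by
    have h2 : ∀ s ∈ orderComplex (Flats n r), s.card ∈ range (r + 1 + 1) := by
      intro s hs
      rw [Finset.mem_range]
      have := Finset.le_sup (f := Finset.card) hs
      rw [sup_card hr hrn] at this
      omega
    rw [← Finset.sum_fiberwise_of_maps_to h2]
    apply Finset.sum_congr rfl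
    intro i _
    have h3 : ∀ s ∈ (orderComplex (Flats n r)).filter (fun s => s.card = i), (X - 1 : ℤ[X]) ^ (r + 1 - s.card) = (X - 1) ^ (r + 1 - i) := by
      intro s hs
      rw [Finset.mem_filter] at hs
      rw [hs.2]
    rw [Finset.sum_congr rfl h3, Finset.sum_const, nsmul_eq_mul]
  rw [h1]
  apply Finset.sum_nbij (fun s => s.map (Function.Embedding.subtype _))
  · intro s hs
    unfold orderComplex at hs
    rw [Finset.mem_filter] at hs
    rw [mem_C]
    constructor
    · intro F hF G hG hne
      rw [Finset.mem_coe, Finset.mem_map] at hF hG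
      obtain ⟨F', hF', rfl⟩ := hF
      obtain ⟨G', hG', rfl⟩ := hG
      have hne' : F' ≠ G' := fun h => hne (by rw [h])
      exact hs.2 hF' hG' hne'
    · intro F hF
      rw [Finset.mem_map] at hF
      obtain ⟨F', _, rfl⟩ := hF
      exact F'.2
  · intro s _ t _ h
    exact Finset.map_injective _ h
  · intro t ht
    rw [Finset.mem_coe, mem_C] at ht
    refine ⟨t.subtype (fun F => IsFlat n r F), ?_, ?_⟩
    · unfold orderComplex
      rw [Finset.mem_coe, Finset.mem_filter]
      refine ⟨Finset.mem_univ _, ?_⟩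
      intro F hF G hG hne
      rw [Finset.mem_coe, Finset.mem_subtype] at hF hG
      exact ht.1 hF hG (fun h => hne (Subtype.ext h))
    · dsimp only
      rw [Finset.subtype_map]
      apply Finset.filter_true_of_mem
      intro F hF
      exact ht.2 F hF
  · intro s _
    rw [Finset.card_map]

open Polynomial in
theorem main (n r : ℕ) (hr : 1 ≤ r) (hrn : r < n) :
    ((hPoly (orderComplex (Flats n r)) : ℤ[X]) : PowerSeries ℤ) =
      PowerSeries.X ^ 2 * ∑ j ∈ Finset.Icc 1 r, (((n - j - 1).choose (r - j) : ℕ) : PowerSeries ℤ) * hilbertSeries n j := by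
  rw [hPoly_eq hr hrn, hh_eq n r hrn.le]
  have h1 : ∑ j ∈ Finset.Icc 1 r, (((n - j - 1).choose (r - j) : ℕ) : PowerSeries ℤ) * hilbertSeries n j =
      ∑ j ∈ range r, (((n - (j + 1) - 1).choose (r - (j + 1)) : ℕ) : PowerSeries ℤ) * ((HH n (j + 1) : ℤ[X]) : PowerSeries ℤ) := by
    symm
    apply Finset.sum_nbij' (fun j => j + 1) (fun j => j - 1)
    · intro j hj; rw [Finset.mem_range] at hj; rw [Finset.mem_Icc]; omega
    · intro j hj; rw [Finset.mem_Icc] at hj; rw [Finset.mem_range]; omega
    · intro j _; rfl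
    · intro j hj; rw [Finset.mem_Icc] at hj; omega
    · intro j hj
      rw [Finset.mem_range] at hj
      rw [hilbert_eq (by omega) (by omega)]
  rw [h1, Polynomial.coe_mul, Polynomial.coe_pow, Polynomial.coe_X]
  congr 1
  have h2 := map_sum (Polynomial.coeToPowerSeries.ringHom (R := ℤ))
    (fun j => ((n - (j + 1) - 1).choose (r - (j + 1)) : ℤ[X]) * HH n (j + 1)) (range r)
  simp only [Polynomial.coeToPowerSeries.ringHom_apply] at h2
  rw [h2]
  apply Finset.sum_congr rfl
  intro j _
  rw [Polynomial.coe_mul]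
  congr 1
  exact (map_natCast (Polynomial.coeToPowerSeries.ringHom (R := ℤ)) ((n - (j + 1) - 1).choose (r - (j + 1))))

end

end Pool.Agent.H323FY
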